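import Pool.Agent.Helper24.C6.Defs

/-!
Project C6, module Base: elementary facts.

`no_loop`: `NoShort` with `i = 0` (`ball A 0 {v} = {v}`).
`no2`: `A y x` gives `x ∈ ball A 1 {y}` (`mem_ball_succ_left`), `NoShort` with `i = 1`.
`no3`, `no4`: same with `i = 2`, `i = 3`.
`mem_N2`: `ball A 2 {v}` = `{v} ∪ {y : A v y} ∪ {y : ∃ w, A v w ∧ A w y}`; unfold with `mem_ball_succ_left`.
`mem_N3`: `y ∈ ball A 3 {v}` iff `y ∈ ball A 2 {v}` or `∃ x ∈ ball A 2 {v}, A x y` (`mem_ball_succ`), and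
`x ∈ ball A 1 {v}` would give `y ∈ ball A 2 {v}`.
`card_two`: `ball A 1 {v} = insert v (out A v)` has `r + 1` elements, `N2` is the rest.
`exists_out_sub`: `out A w` has `r` elements, at most `dg A X w` of them are in `X`.
-/

set_option autoImplicit false

namespace Pool.Agent.Helper24.C6

open Classical Pool.Agent.Helper24.CH

variable {V : Type} [Fintype V] {A : V → V → Prop}

theorem mem_out {v w : V} : w ∈ out A v ↔ A v w := by
  simp [out]

theorem no_loop {g : ℕ} (hg : NoShort A g) (h : 2 ≤ g) (v : V) : ¬ A v v := by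
  sorry

theorem no2 {g : ℕ} (hg : NoShort A g) (h : 3 ≤ g) {x y : V} (hxy : A x y) : ¬ A y x := by
  sorry

theorem no3 {g : ℕ} (hg : NoShort A g) (h : 4 ≤ g) {x y z : V} (hxy : A x y) (hyz : A y z) :
    ¬ A z x := by
  sorry

theorem no4 {g : ℕ} (hg : NoShort A g) (h : 5 ≤ g) {x y z t : V} (hxy : A x y) (hyz : A y z)
    (hzt : A z t) : ¬ A t x := by
  sorry

theorem mem_ball_one {v y : V} : y ∈ ball A 1 {v} ↔ y = v ∨ A v y := by
  sorry

theorem mem_ball_two {v y : V} :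
    y ∈ ball A 2 {v} ↔ y = v ∨ A v y ∨ ∃ w, A v w ∧ A w y := by
  sorry

theorem mem_N2 {v y : V} : y ∈ N2 A v ↔ y ≠ v ∧ ¬ A v y ∧ ∃ w, A v w ∧ A w y := by
  sorry

theorem mem_N3 {v y : V} : y ∈ N3 A v ↔ y ∉ ball A 2 {v} ∧ ∃ w ∈ N2 A v, A w y := by
  sorry

theorem Dig.card_one {r g : ℕ} (h : Dig A r g) (h2 : 2 ≤ g) (v : V) :
    (ball A 1 {v}).card = r + 1 := by
  sorry

theorem Dig.card_two {r g : ℕ} (h : Dig A r g) (h2 : 2 ≤ g) (v : V) :
    (ball A 2 {v}).card = r + 1 + (N2 A v).card := by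
  sorry

theorem Dig.card_three {r g : ℕ} (h : Dig A r g) (h2 : 2 ≤ g) (v : V) :
    (ball A 3 {v}).card = r + 1 + (N2 A v).card + (N3 A v).card := by
  sorry

/-- The out-neighbours of `w` outside `X`. -/
theorem Dig.card_out_sdiff {r g : ℕ} (h : Dig A r g) (X : Finset V) (w : V) :
    (out A w \ X).card + dg A X w = r := by
  sorry

/-- `N⁺(w)` for `w ∈ N⁺(v)` is contained in `N⁺(v) ∪ N_2(v)`. -/
theorem Dig.out_subset {r g : ℕ} (h : Dig A r g) (h3 : 3 ≤ g) {v w : V} (hw : A v w) :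
    out A w ⊆ out A v ∪ N2 A v := by
  sorry

end Pool.Agent.Helper24.C6
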