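import Pool.Agent.Helper24.C6.Local

/-!
Project C6, module Dom (`r = g = 6`): induced 6-cycles all of whose vertices dominate the same 5 vertices.

`dom7`: `exists_sink` for `E` (`5 < 6`): `e0 ∈ E` with no out-neighbour in `E`. Its 6 out-neighbours `y` are not in `E`,
 not in `X` (`y ∈ X` dominates `E`, `no2`), so they are in `N2 A x` for each `x ∈ X` (`x → e0 → y`, `y ≠ x`, `y ∉ out A x
 = insert x⁺ E`). Also `x⁺⁺ ∈ N2 A x`: `x → x⁺ → x⁺⁺ ∈ X`, `x⁺⁺ ≠ x` (`no2`), `x⁺⁺ ∉ insert x⁺ E` (no loop, `X` and `E`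
 disjoint). `x⁺⁺ ∈ X` is different from the six. So 7.
`c1`: `|N2 A v| = 5`: `dg_ge`, `small_cycle` for `X = out A v` (`g = 6`): all `dg A X w = 1`, so `D1`, `str_of_D1`. With
 `E = N2 A v` (`|E| = 5`): `dom7` applies, and `Rel A w E` by `rel_of_str`. `|N3 A v| ≥ 6`: `e0` as above, its 6
 out-neighbours `y ∉ E`, `y ∉ out A v` (all elements of `out A v` dominate `E`), `y ≠ v` (`no3`: `v → w → e0 → v`):
 `y ∈ N3 A v` (`mem_N3`).
`c2`: if `|N3 A v| ≤ 3`: `X = out A v ∪ N2 A v`; every `x ∈ X` has its out-neighbours in `X ∪ N3 A v` (not `v`: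
 `no2`, `no3`), so `dg A X x ≥ 3`, and `ch_sub` (`r = 3`, `g = 6`) gives `16 ≤ |X| = 6 + |N2 A v|`.
`twin3`: let `|N2 v1| = 5`, `N2 v1 = N2 v2 = E`. If `v2 ∈ ball A 3 {v1}`: not in `ball A 2` (`twin`), so `v2 ∈ N3 A v1`,
 `e → v2` for some `e ∈ E = N2 A v2`; every `w ∈ out A v2` dominates `E` (`c1` type structure at `v2`):
 `e → v2 → w → e`, contradiction to `no3`.
-/

set_option autoImplicit false

namespace Pool.Agent.Helper24.C6

open Classical Pool.Agent.Helper24.CH

variable {V : Type} [Fintype V] {A : V → V → Prop}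

private theorem not_of_sink {E : Finset V} {e : V} (hs : dg A E e = 0) : ∀ y ∈ E, ¬ A e y := by
  intro y hy hey
  unfold dg at hs
  rw [Finset.card_eq_zero, Finset.filter_eq_empty_iff] at hs
  exact hs hy hey

theorem Dig.dom7 (h : Dig A 6 6) {X E : Finset V} (hE : E.card = 5) (hXE : Disjoint X E)
    (hX : ∀ x ∈ X, ∃ y ∈ X, out A x = insert y E) : ∀ x ∈ X, 7 ≤ (N2 A x).card := by
  intro x hx
  obtain ⟨e0, he0, hs0⟩ := exists_sink h.hg (X := E) (Finset.card_pos.1 (by omega)) (by omega)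
  have hs := not_of_sink hs0
  have hdom : ∀ z ∈ X, A z e0 := by
    intro z hz
    obtain ⟨y, -, o⟩ := hX z hz
    have h1 : e0 ∈ out A z := by
      rw [o]
      exact Finset.mem_insert_of_mem he0
    exact mem_out.1 h1
  obtain ⟨y1, hy1, o1⟩ := hX x hx
  obtain ⟨y2, hy2, o2⟩ := hX y1 hy1
  have a1 : A x y1 := mem_out.1 (by rw [o1]; exact Finset.mem_insert_self _ _)
  have a2 : A y1 y2 := mem_out.1 (by rw [o2]; exact Finset.mem_insert_self _ _)
  have hnot : y2 ∉ out A e0 := by
    intro hc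
    exact no2 h.hg (by norm_num) (hdom y2 hy2) (mem_out.1 hc)
  have hsub : insert y2 (out A e0) ⊆ N2 A x := by
    intro y hy
    rcases Finset.mem_insert.1 hy with rfl | hy
    · rw [mem_N2]
      refine ⟨?_, ?_, y1, a1, a2⟩
      · rintro rfl
        exact no2 h.hg (by norm_num) a1 a2
      · intro hc
        have h1 := mem_out.2 hc
        rw [o1, Finset.mem_insert] at h1
        rcases h1 with h1 | h1
        · rw [h1] at a2
          exact no_loop h.hg (by norm_num) _ a2
        · exact Finset.disjoint_left.1 hXE hy2 h1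
    · have hey := mem_out.1 hy
      rw [mem_N2]
      refine ⟨?_, ?_, e0, hdom x hx, hey⟩
      · rintro rfl
        exact no2 h.hg (by norm_num) (hdom _ hx) hey
      · intro hc
        have h1 := mem_out.2 hc
        rw [o1, Finset.mem_insert] at h1
        rcases h1 with h1 | h1
        · rw [h1] at hey
          exact no2 h.hg (by norm_num) (hdom _ hy1) hey
        · exact hs y h1 hey
  have h3 := Finset.card_le_card hsub
  rw [Finset.card_insert_of_notMem hnot, h.hd e0] at h3
  exact h3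

private theorem c1_str (h : Dig A 6 6) {v : V} (hx : (N2 A v).card = 5) :
    ∀ w, A v w → ∃ w', A w w' ∧ Str A v w w' := by
  intro w hw
  have hv : (out A v).card = 6 := h.hd v
  have h1 := small_cycle h.hg (X := out A v) (Finset.card_pos.1 (by omega)) (by omega)
    (fun x hxv => h.dg_ge (by norm_num) (by omega) (mem_out.1 hxv))
  exact h.str_of_D1 (by norm_num) (by omega) ⟨hw, h1.2 w (mem_out.2 hw)⟩

theorem Dig.c1 (h : Dig A 6 6) {v : V} (hx : (N2 A v).card = 5) :
    6 ≤ (N3 A v).card ∧ ∀ w, A v w → Rel A w (N2 A v) ∧ 7 ≤ (N2 A w).card := by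
  have hstr := c1_str h hx
  constructor
  · obtain ⟨e0, he0, hs0⟩ := exists_sink h.hg (X := N2 A v) (Finset.card_pos.1 (by omega))
      (by omega)
    have hs := not_of_sink hs0
    have hsub : out A e0 ⊆ N3 A v := by
      intro y hy
      have hey := mem_out.1 hy
      rw [mem_N3]
      refine ⟨?_, e0, he0, hey⟩
      intro hb
      have c1 : y ≠ v := by
        rintro rfl
        obtain ⟨w, hw1, hw2⟩ := (mem_N2.1 he0).2.2
        exact no3 h.hg (by norm_num) hw1 hw2 hey
      have c2 : ¬ A v y := by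
        intro hc
        obtain ⟨w', -, -, -, -, o⟩ := hstr y hc
        have h1 : e0 ∈ out A y := by
          rw [o]
          exact Finset.mem_insert_of_mem he0
        exact no2 h.hg (by norm_num) (mem_out.1 h1) hey
      rcases mem_ball_two.1 hb with h2 | h2 | h2
      · exact c1 h2
      · exact c2 h2
      · exact hs y (mem_N2.2 ⟨c1, c2, h2⟩) hey
    have h3 := Finset.card_le_card hsub
    rw [h.hd e0] at h3
    exact h3
  · intro w hw
    obtain ⟨w', hww, hS⟩ := hstr w hw
    constructor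
    · obtain ⟨w'', -, hS'⟩ := hstr w' hS.2.1
      exact rel_of_str hS hS'
    · refine h.dom7 (X := out A v) hx ?_ ?_ w (mem_out.2 hw)
      · rw [Finset.disjoint_left]
        intro y hy hy2
        exact (mem_N2.1 hy2).2.1 (mem_out.1 hy)
      · intro x hxv
        obtain ⟨y, -, -, h2, -, o⟩ := hstr x (mem_out.1 hxv)
        exact ⟨y, mem_out.2 h2, o⟩

theorem Dig.c2 (h : Dig A 6 6) {v : V} (hx : (N3 A v).card ≤ 3) : 10 ≤ (N2 A v).card := by
  have hv : (out A v).card = 6 := h.hd v
  have hne : (out A v ∪ N2 A v).Nonempty := by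
    obtain ⟨w, hw⟩ := Finset.card_pos.1 (by omega : 0 < (out A v).card)
    exact ⟨w, Finset.mem_union_left _ hw⟩
  have hd : ∀ x ∈ out A v ∪ N2 A v, 3 ≤ dg A (out A v ∪ N2 A v) x := by
    intro x hxX
    have h1 := h.card_out_sdiff (out A v ∪ N2 A v) x
    have hsub : out A x \ (out A v ∪ N2 A v) ⊆ N3 A v := by
      intro y hy
      rw [Finset.mem_sdiff] at hy
      obtain ⟨hy1, hy2⟩ := hy
      rcases Finset.mem_union.1 hxX with h4 | h4
      · exact absurd (h.out_subset (by norm_num) (mem_out.1 h4) hy1) hy2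
      · rw [mem_N3]
        refine ⟨?_, x, h4, mem_out.1 hy1⟩
        intro hb
        have c1 : y ≠ v := by
          rintro rfl
          obtain ⟨w, hw1, hw2⟩ := (mem_N2.1 h4).2.2
          exact no3 h.hg (by norm_num) hw1 hw2 (mem_out.1 hy1)
        have c2 : ¬ A v y := fun hc => hy2 (Finset.mem_union_left _ (mem_out.2 hc))
        rcases mem_ball_two.1 hb with h2 | h2 | h2
        · exact c1 h2
        · exact c2 h2
        · exact hy2 (Finset.mem_union_right _ (mem_N2.2 ⟨c1, c2, h2⟩))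
    have h4 := Finset.card_le_card hsub
    omega
  have h5 := ch_sub h.hg (by norm_num : 3 + 1 ≤ 6) hne hd
  have h6 := Finset.card_union_le (out A v) (N2 A v)
  omega

theorem Dig.twin3 (h : Dig A 6 6) {v1 v2 : V} (hne : v1 ≠ v2) (hx : (N2 A v1).card = 5)
    (hE : N2 A v1 = N2 A v2) : v2 ∉ ball A 3 {v1} := by
  intro hb
  have h2 := h.twin (by norm_num) hne hE
  have h3 : v2 ∈ N3 A v1 := Finset.mem_sdiff.2 ⟨hb, h2⟩
  obtain ⟨e, he, hev⟩ := (mem_N3.1 h3).2
  have hx2 : (N2 A v2).card = 5 := by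
    rw [← hE]
    exact hx
  have hv : (out A v2).card = 6 := h.hd v2
  obtain ⟨w, hw⟩ := Finset.card_pos.1 (by omega : 0 < (out A v2).card)
  obtain ⟨⟨w', -, o, -⟩, -⟩ := (h.c1 hx2).2 w (mem_out.1 hw)
  rw [hE] at he
  have h4 : e ∈ out A w := by
    rw [o]
    exact Finset.mem_insert_of_mem he
  exact no3 h.hg (by norm_num) hev (mem_out.1 hw) (mem_out.1 h4)

end Pool.Agent.Helper24.C6
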