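import Pool.Agent.Helper24.C6.Sub

/-!
Project C6, module Local: structure of the digraph around `v` when `|N_2(v)| = r - 1`.

`x2_ge`: if `r ≤ |N2| + 1` fails, every `w ∈ N⁺(v) = out A v` has at least two out-neighbours in `out A v`
 (`out_subset`, `card_out_sdiff` with `X = out A v`: `out A w \ out A v ⊆ N2 A v` has `≤ r - 2` elements), and
 `ch_sub` (`r = 2`) gives `2 (g - 1) + 1 ≤ |out A v| = r`, contradiction to `r < 2 g - 1`.
`dg_ge`: same count. `str_of_D1`: `out A w \ out A v ⊆ N2 A v` has exactly `r - 1` elements, so it is `N2 A v`.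
 `w'` = the element of `(out A v).filter (A w ·)`; `w' ∉ N2 A v` since `A v w'`.
`rel_unique`: `w' ≠ w''` would give `w'' ∈ E1`, `A w' w''` and `w' ∈ E2`, `A w'' w'`, contradiction to `no2`;
 so `w' = w''` and the sets are `out A w` without `w'`.
`rel_of_str`: `out A w = insert w' (N2 A v)`, `A w w'`, `w'` dominates `N2 A v` because of `Str A v w' w''`.
`twin`: `v1 → v2` would give `out A v2 ⊆ (out A v1 ∪ N2 A v1) \ N2 A v2 = out A v1` minus.., both have `r`
 elements, so `v2 ∈ out A v1 = out A v2`, a loop; `v2 ∈ N2 A v1 = N2 A v2` is impossible (`mem_N2`, `v2 ≠ v2`).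
-/

set_option autoImplicit false

namespace Pool.Agent.Helper24.C6

open Classical Pool.Agent.Helper24.CH

variable {V : Type} [Fintype V] {A : V → V → Prop}

/-- `N⁺(w) = {w'} ∪ E` where `w'` dominates `E`. -/
def Rel (A : V → V → Prop) (w : V) (E : Finset V) : Prop :=
  ∃ w', w' ∉ E ∧ out A w = insert w' E ∧ ∀ e ∈ E, A w' e

private theorem out_sdiff_subset {r g : ℕ} (h : Dig A r g) (h3 : 3 ≤ g) {v w : V} (hw : A v w) :
    out A w \ out A v ⊆ N2 A v := by
  intro y hy
  rw [Finset.mem_sdiff] at hy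
  rcases Finset.mem_union.1 (h.out_subset h3 hw hy.1) with h4 | h4
  · exact absurd h4 hy.2
  · exact h4

theorem Dig.x2_ge {r g : ℕ} (h : Dig A r g) (h3 : 3 ≤ g) (hr : r + 2 ≤ 2 * g) (hr0 : 1 ≤ r) (v : V) :
    r ≤ (N2 A v).card + 1 := by
  by_contra hlt
  push Not at hlt
  have hX : (out A v).Nonempty := by
    rw [← Finset.card_pos, h.hd v]
    omega
  have hd : ∀ x ∈ out A v, 2 ≤ dg A (out A v) x := by
    intro x hx
    have h1 := h.card_out_sdiff (out A v) x
    have h4 := Finset.card_le_card (out_sdiff_subset h h3 (mem_out.1 hx))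
    omega
  have h5 := ch_sub h.hg (by omega : 2 + 1 ≤ g) hX hd
  rw [h.hd v] at h5
  omega

theorem Dig.dg_ge {r g : ℕ} (h : Dig A r g) (h3 : 3 ≤ g) {v w : V} (hx : (N2 A v).card + 1 = r)
    (hw : A v w) : 1 ≤ dg A (out A v) w := by
  have h1 := h.card_out_sdiff (out A v) w
  have h4 := Finset.card_le_card (out_sdiff_subset h h3 hw)
  omega

theorem Dig.str_of_D1 {r g : ℕ} (h : Dig A r g) (h3 : 3 ≤ g) {v w : V}
    (hx : (N2 A v).card + 1 = r) (hw : D1 A v w) : ∃ w', A w w' ∧ Str A v w w' := by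
  obtain ⟨hvw, hdw⟩ := hw
  have h1 := h.card_out_sdiff (out A v) w
  have hE : out A w \ out A v = N2 A v :=
    Finset.eq_of_subset_of_card_le (out_sdiff_subset h h3 hvw) (by omega)
  obtain ⟨w', hw'⟩ := Finset.card_eq_one.1 hdw
  have hm : w' ∈ (out A v).filter (fun y => A w y) := by
    rw [hw']
    exact Finset.mem_singleton_self w'
  rw [Finset.mem_filter] at hm
  obtain ⟨hm1, hm2⟩ := hm
  refine ⟨w', hm2, hvw, mem_out.1 hm1, ?_, ?_⟩
  · intro hc
    exact (mem_N2.1 hc).2.1 (mem_out.1 hm1)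
  · ext y
    rw [Finset.mem_insert]
    constructor
    · intro hy
      by_cases hyv : y ∈ out A v
      · left
        have : y ∈ (out A v).filter (fun y => A w y) := Finset.mem_filter.2 ⟨hyv, mem_out.1 hy⟩
        rw [hw', Finset.mem_singleton] at this
        exact this
      · right
        rw [← hE, Finset.mem_sdiff]
        exact ⟨hy, hyv⟩
    · rintro (rfl | hy)
      · exact mem_out.2 hm2
      · rw [← hE, Finset.mem_sdiff] at hy
        exact hy.1

theorem rel_unique {g : ℕ} (hg : NoShort A g) (h3 : 3 ≤ g) {w : V} {E1 E2 : Finset V}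
    (h1 : Rel A w E1) (h2 : Rel A w E2) : E1 = E2 := by
  obtain ⟨w', n1, o1, d1⟩ := h1
  obtain ⟨w'', n2, o2, d2⟩ := h2
  have he : insert w' E1 = insert w'' E2 := by rw [← o1, ← o2]
  by_cases hww : w' = w''
  · subst hww
    rw [← Finset.erase_insert n1, ← Finset.erase_insert n2, he]
  · exfalso
    have a1 : w'' ∈ insert w' E1 := by
      rw [he]
      exact Finset.mem_insert_self _ _
    have a2 : w' ∈ insert w'' E2 := by
      rw [← he]
      exact Finset.mem_insert_self _ _
    rcases Finset.mem_insert.1 a1 with b1 | b1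
    · exact hww b1.symm
    · rcases Finset.mem_insert.1 a2 with b2 | b2
      · exact hww b2
      · exact no2 hg h3 (d1 _ b1) (d2 _ b2)

theorem rel_of_str {v w w' w'' : V} (h1 : Str A v w w') (h2 : Str A v w' w'') :
    Rel A w (N2 A v) := by
  obtain ⟨-, -, n1, o1⟩ := h1
  obtain ⟨-, -, -, o2⟩ := h2
  refine ⟨w', n1, o1, fun e he => ?_⟩
  have h5 : e ∈ out A w' := by
    rw [o2]
    exact Finset.mem_insert_of_mem he
  exact mem_out.1 h5

theorem Dig.twin {r g : ℕ} (h : Dig A r g) (h3 : 3 ≤ g) {v1 v2 : V} (hne : v1 ≠ v2)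
    (hE : N2 A v1 = N2 A v2) : v2 ∉ ball A 2 {v1} := by
  intro hb
  by_cases h1 : A v1 v2
  · have hsub : out A v2 ⊆ out A v1 := by
      intro y hy
      rcases Finset.mem_union.1 (h.out_subset h3 h1 hy) with h4 | h4
      · exact h4
      · rw [hE] at h4
        exact absurd (mem_out.1 hy) (mem_N2.1 h4).2.1
    have heq : out A v2 = out A v1 :=
      Finset.eq_of_subset_of_card_le hsub (by rw [h.hd v1, h.hd v2])
    have h5 : v2 ∈ out A v2 := by
      rw [heq]
      exact mem_out.2 h1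
    exact no_loop h.hg (by omega) v2 (mem_out.1 h5)
  · rcases mem_ball_two.1 hb with h2 | h2 | h2
    · exact hne h2.symm
    · exact h1 h2
    · have h5 : v2 ∈ N2 A v1 := mem_N2.2 ⟨hne.symm, h1, h2⟩
      rw [hE] at h5
      exact (mem_N2.1 h5).1 rfl

end Pool.Agent.Helper24.C6
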