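import Pool.Agent.Helper24.C6.Group
import Pool.Agent.Helper24.C6.Local

/-!
Project C6, module G4a: girth 4, consequences of the pair count (helper35).

`tight`: `pair_waste` with `R1 = 1`, `R2 = 2` (`g = 4`): `∑ (r+1) + ∑ (r + 1 + |N2 v|) + waste = n (n+1)`,
 with `|N2 v| ≥ r - 1` (`x2_ge`): `n (3 r + 1) ≤ n (n + 1)`, so `n = 3 r`, all `|N2 v| = r - 1` and the waste is 0,
 i.e. for `v ≠ u`: `u ∈ ball A 1 {v}` or `v ∈ ball A 2 {u}`.
`card_in`: `V` is the disjoint union of `{u}`, `out A u`, `N2 A u` and the in-neighbours of `u` (by `hpart`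
 and no closed walks of length ≤ 3), so there are `3 r - 1 - r - (r - 1) = r` in-neighbours.
-/

set_option autoImplicit false

namespace Pool.Agent.Helper24.C6

open Classical Pool.Agent.Helper24.CH

variable {V : Type} [Fintype V] {A : V → V → Prop}

private theorem card_ball_one {r g : ℕ} (h : Dig A r g) (hg2 : 2 ≤ g) (v : V) :
    (ball A 1 {v}).card = r + 1 := by
  have e : ball A 1 {v} = insert v (out A v) := by
    ext y
    rw [show (1 : ℕ) = 0 + 1 from rfl, mem_ball_succ, ball_zero, Finset.mem_insert, out,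
      Finset.mem_filter]
    constructor
    · rintro (hy | ⟨x, hx, hxy⟩)
      · exact Or.inl (Finset.mem_singleton.1 hy)
      · rw [Finset.mem_singleton.1 hx] at hxy
        exact Or.inr ⟨Finset.mem_univ _, hxy⟩
    · rintro (hy | ⟨_, hxy⟩)
      · exact Or.inl (Finset.mem_singleton.2 hy)
      · exact Or.inr ⟨v, Finset.mem_singleton_self v, hxy⟩
  have hv : v ∉ out A v := by
    intro hv
    have hvv : A v v := (Finset.mem_filter.1 hv).2
    exact h.hg v v hvv 0 (by omega) (by rw [ball_zero]; exact Finset.mem_singleton_self v)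
  rw [e, Finset.card_insert_of_notMem hv, h.hd v]

private theorem card_ball_two {r g : ℕ} (h : Dig A r g) (hg2 : 2 ≤ g) (v : V) :
    (ball A 2 {v}).card = r + ((N2 A v).card + 1) := by
  have hs : ball A 1 {v} ⊆ ball A 2 {v} := ball_subset_ball_of_le (by omega) _
  have h1 : (N2 A v).card + (ball A 1 {v}).card = (ball A 2 {v}).card := by
    rw [N2]
    exact Finset.card_sdiff_add_card_eq_card hs
  rw [card_ball_one h hg2 v] at h1
  omega

theorem Dig.tight [Nonempty V] {r : ℕ} (h : Dig A r 4) (hr0 : 1 ≤ r) (hr : r ≤ 6)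
    (hn : Fintype.card V ≤ 3 * r) : Fintype.card V = 3 * r ∧ (∀ v, (N2 A v).card + 1 = r) ∧
      ∀ v u : V, v ≠ u → u ∉ ball A 1 {v} → v ∈ ball A 2 {u} := by
  have h1 : ∀ v : V, (ball A 1 {v}).card = r + 1 := fun v => card_ball_one h (by omega) v
  have h2 : ∀ v : V, (ball A 2 {v}).card = r + ((N2 A v).card + 1) :=
    fun v => card_ball_two h (by omega) v
  obtain ⟨n, hnd⟩ : ∃ n, n = Fintype.card V := ⟨_, rfl⟩
  obtain ⟨W, hW⟩ : ∃ W : Finset (V × V), W = ((Finset.univ : Finset (V × V)).filter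
      (fun p => p.1 ≠ p.2 ∧ p.2 ∉ ball A 1 {p.1} ∧ p.1 ∉ ball A 2 {p.2})) := ⟨_, rfl⟩
  have hw : n * (r + 1) + (n * r + ∑ v : V, ((N2 A v).card + 1)) + W.card = n * (n + 1) := by
    have hw := pair_waste h.hg (R1 := 1) (R2 := 2) (by omega)
    have s1 : ∑ v : V, (ball A 1 {v}).card = n * (r + 1) := by
      rw [Finset.sum_congr rfl (fun v _ => h1 v), Finset.sum_const, Finset.card_univ, ← hnd,
        smul_eq_mul]
    have s2 : ∑ v : V, (ball A 2 {v}).card = n * r + ∑ v : V, ((N2 A v).card + 1) := by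
      rw [Finset.sum_congr rfl (fun v _ => h2 v), Finset.sum_add_distrib, Finset.sum_const,
        Finset.card_univ, ← hnd, smul_eq_mul]
    rw [← hW, ← hnd, s1, s2] at hw
    exact hw
  rw [← hnd] at hn ⊢
  have hnpos : 0 < n := hnd ▸ Fintype.card_pos
  have hx : ∀ v, r ≤ (N2 A v).card + 1 := fun v => h.x2_ge (by omega) (by omega) hr0 v
  have hS : n * r ≤ ∑ v : V, ((N2 A v).card + 1) := by
    have := Finset.card_nsmul_le_sum (Finset.univ : Finset V) (fun v => (N2 A v).card + 1) r
      (fun v _ => hx v)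
    rwa [Finset.card_univ, ← hnd, smul_eq_mul] at this
  have hle : n * (n + 1) ≤ n * (3 * r + 1) := Nat.mul_le_mul_left _ (by omega)
  have e1 : n * (r + 1) = n * r + n := by ring
  have e2 : n * (3 * r + 1) = 3 * (n * r) + n := by ring
  have hSW : (∑ v : V, ((N2 A v).card + 1)) + W.card ≤ n * r := by omega
  have hW0 : W.card = 0 := by omega
  have hSe : ∑ v : V, ((N2 A v).card + 1) = n * r := by omega
  have hnn : n * (n + 1) = n * (3 * r + 1) := by omega
  have hn3 : n = 3 * r := by
    have := Nat.eq_of_mul_eq_mul_left hnpos hnn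
    omega
  refine ⟨hn3, ?_, ?_⟩
  · have hsum : ∑ v : V, r = ∑ v : V, ((N2 A v).card + 1) := by
      rw [Finset.sum_const, Finset.card_univ, ← hnd, smul_eq_mul, hSe]
    have := (Finset.sum_eq_sum_iff_of_le (s := (Finset.univ : Finset V)) (f := fun _ => r)
      (g := fun v => (N2 A v).card + 1) (fun v _ => hx v)).1 hsum
    intro v
    exact (this v (Finset.mem_univ v)).symm
  · intro v u hvu hu
    by_contra hv
    have hm : (v, u) ∈ W := by
      rw [hW, Finset.mem_filter]
      exact ⟨Finset.mem_univ _, hvu, hu, hv⟩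
    rw [Finset.card_eq_zero.1 hW0] at hm
    exact absurd hm (Finset.notMem_empty _)

theorem Dig.card_in {r : ℕ} (h : Dig A r 4) (hr0 : 1 ≤ r) (hn : Fintype.card V = 3 * r)
    (hx : ∀ v, (N2 A v).card + 1 = r)
    (hpart : ∀ v u : V, v ≠ u → u ∉ ball A 1 {v} → v ∈ ball A 2 {u}) (u : V) :
    (Finset.univ.filter (fun y => A y u)).card = r := by
  have e : Finset.univ.filter (fun y => A y u) = Finset.univ \ ball A 2 {u} := by
    ext y
    rw [Finset.mem_filter, Finset.mem_sdiff]
    constructor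
    · rintro ⟨_, hy⟩
      exact ⟨Finset.mem_univ _, h.hg y u hy 2 (by omega)⟩
    · rintro ⟨_, hy⟩
      refine ⟨Finset.mem_univ _, ?_⟩
      have hyu : y ≠ u := by
        rintro rfl
        exact hy (subset_ball 2 _ (Finset.mem_singleton_self _))
      have hb : u ∈ ball A 1 {y} := by
        by_contra hb
        exact hy (hpart y u hyu hb)
      rw [show (1 : ℕ) = 0 + 1 from rfl, mem_ball_succ, ball_zero] at hb
      rcases hb with hb | ⟨x, hx, hxu⟩
      · exact absurd (Finset.mem_singleton.1 hb).symm hyu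
      · rwa [Finset.mem_singleton.1 hx] at hxu
  have h2 := card_ball_two h (by omega) u
  have hc : (Finset.univ \ ball A 2 {u}).card + (ball A 2 {u}).card = Fintype.card V := by
    rw [Finset.card_sdiff_add_card_eq_card (Finset.subset_univ _), Finset.card_univ]
  have := hx u
  rw [e]
  omega

end Pool.Agent.Helper24.C6
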