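import Pool.Agent.Helper24.C6.Local

/-!
Project C6, module G4b: girth 4, the sets `D1(v)` (helper35).

`F1`: let `Str A v w w'`. `N⁻(v)` is not contained in `N⁻(w)` (both have `r` elements, `v ∈ N⁻(w) \ N⁻(v)`): take
 `z → v`, `z` not `→ w`; `w` not `→ z` (`v → w → z → v`), `z ≠ w`; so `z ∈ N2 A w` (`hpart` for `v := z`, `u := w`).
 If `D1 A w w'` then `N⁺(w') ⊇ N2 A w` (`str_of_D1`), `w' → z → v → w'`.
`F2`: `w, y ∈ D1(v)`, not adjacent, `w ≠ y`: `y ∈ N2 A w` (`hpart`). `T_w = out A w` has `r ≤ 6 < 7` elements, so some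
 `e ∈ out A w` has at most one (`ch_sub` with `r = 2`), hence (`dg_ge`) exactly one out-neighbour in `out A w`:
 `D1 A w e`. `e ≠ w'` by `F1`, so `e ∈ N2 A v` (`out A w = insert w' (N2 A v)`); `N⁺(e) ⊇ N2 A w ∋ y`, but
 `N⁺(y) ⊇ N2 A v ∋ e`: 2-cycle.
`card_D1`: three elements of `D1(v)` are pairwise adjacent without directed triangle, so one of them has arcs to the two
 others, contradiction to `dg A (out A v) · = 1`.
-/

set_option autoImplicit false

namespace Pool.Agent.Helper24.C6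

open Classical Pool.Agent.Helper24.CH

variable {V : Type} [Fintype V] {A : V → V → Prop}

theorem Dig.F1 {r : ℕ} (h : Dig A r 4) (hx : ∀ v, (N2 A v).card + 1 = r)
    (hin : ∀ u : V, (Finset.univ.filter (fun y => A y u)).card = r)
    (hpart : ∀ v u : V, v ≠ u → u ∉ ball A 1 {v} → v ∈ ball A 2 {u}) {v w w' : V}
    (hw : Str A v w w') : ¬ D1 A w w' := by
  intro hD
  obtain ⟨h1, h2, h3, h4⟩ := hw
  -- a vertex z with z → v, not z → w
  have hz : ∃ z, A z v ∧ ¬ A z w := by
    by_contra hcon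
    push Not at hcon
    have hsub : Finset.univ.filter (fun y => A y v) ⊆ Finset.univ.filter (fun y => A y w) := by
      intro y hy
      rw [Finset.mem_filter] at hy ⊢
      exact ⟨Finset.mem_univ _, hcon y hy.2⟩
    have heq := Finset.eq_of_subset_of_card_le hsub (by rw [hin v, hin w])
    have hv : v ∈ Finset.univ.filter (fun y => A y w) := by
      rw [Finset.mem_filter]; exact ⟨Finset.mem_univ _, h1⟩
    rw [← heq, Finset.mem_filter] at hv
    exact no_loop h.hg (by norm_num) v hv.2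
  obtain ⟨z, hzv, hzw⟩ := hz
  have hwz : ¬ A w z := fun hwz => no3 h.hg (le_refl 4) h1 hwz hzv
  have hne : z ≠ w := by
    rintro rfl
    exact no2 h.hg (by norm_num) h1 hzv
  have hb : w ∉ ball A 1 {z} := by
    rw [mem_ball_one]
    rintro (h5 | h5)
    · exact hne h5.symm
    · exact hzw h5
  have hz2 := hpart z w hne hb
  rw [mem_ball_two] at hz2
  have hzN : z ∈ N2 A w := by
    rw [mem_N2]
    rcases hz2 with h5 | h5 | h5
    · exact absurd h5 hne
    · exact absurd h5 hwz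
    · exact ⟨hne, hwz, h5⟩
  obtain ⟨w'', hw'', _, _, _, h8⟩ := h.str_of_D1 (by norm_num) (hx w) hD
  have hz3 : z ∈ out A w' := by
    rw [h8]
    exact Finset.mem_insert_of_mem hzN
  rw [mem_out] at hz3
  exact no3 h.hg (le_refl 4) h2 hz3 hzv

theorem Dig.exists_D1 {r : ℕ} (h : Dig A r 4) (hr0 : 1 ≤ r) (hr : r ≤ 6)
    (hx : ∀ v, (N2 A v).card + 1 = r) (v : V) : ∃ w, D1 A v w := by
  by_contra hcon
  push Not at hcon
  have hX : (out A v).Nonempty := by
    rw [← Finset.card_pos, h.hd v]; omega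
  have h1 := ch_sub h.hg (r := 2) (by norm_num) hX (fun x hxv => by
    rw [mem_out] at hxv
    have h2 := h.dg_ge (by norm_num) (hx v) hxv
    by_contra h3
    exact hcon x ⟨hxv, by omega⟩)
  rw [h.hd v] at h1
  omega

theorem Dig.F2 {r : ℕ} (h : Dig A r 4) (hr0 : 1 ≤ r) (hr : r ≤ 6)
    (hx : ∀ v, (N2 A v).card + 1 = r)
    (hin : ∀ u : V, (Finset.univ.filter (fun y => A y u)).card = r)
    (hpart : ∀ v u : V, v ≠ u → u ∉ ball A 1 {v} → v ∈ ball A 2 {u}) {v w y : V}
    (hw : D1 A v w) (hy : D1 A v y) (hne : w ≠ y) : A w y ∨ A y w := by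
  by_contra hcon
  push Not at hcon
  obtain ⟨h1, h2⟩ := hcon
  have hb : w ∉ ball A 1 {y} := by
    rw [mem_ball_one]
    rintro (h5 | h5)
    · exact hne h5
    · exact h2 h5
  have hy2 := hpart y w (Ne.symm hne) hb
  rw [mem_ball_two] at hy2
  have hyN : y ∈ N2 A w := by
    rw [mem_N2]
    rcases hy2 with h5 | h5 | h5
    · exact absurd h5.symm hne
    · exact absurd h5 h1
    · exact ⟨Ne.symm hne, h1, h5⟩
  obtain ⟨e, he⟩ := h.exists_D1 hr0 hr hx w
  obtain ⟨w', hww', hS⟩ := h.str_of_D1 (by norm_num) (hx v) hw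
  have hew' : e ≠ w' := by
    rintro rfl
    exact h.F1 hx hin hpart hS he
  have heN : e ∈ N2 A v := by
    have h6 : e ∈ out A w := by rw [mem_out]; exact he.1
    rw [hS.2.2.2, Finset.mem_insert] at h6
    rcases h6 with h6 | h6
    · exact absurd h6 hew'
    · exact h6
  obtain ⟨e', _, hSe⟩ := h.str_of_D1 (by norm_num) (hx w) he
  have h7 : A e y := by
    rw [← mem_out (A := A), hSe.2.2.2]
    exact Finset.mem_insert_of_mem hyN
  obtain ⟨y', _, hSy⟩ := h.str_of_D1 (by norm_num) (hx v) hy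
  have h8 : A y e := by
    rw [← mem_out (A := A), hSy.2.2.2]
    exact Finset.mem_insert_of_mem heN
  exact no2 h.hg (by norm_num) h7 h8

private theorem two_le_dg {X : Finset V} {a b c : V} (hb : b ∈ X) (hc : c ∈ X) (hbc : b ≠ c)
    (h1 : A a b) (h2 : A a c) : 2 ≤ dg A X a := by
  rw [dg]
  have h3 : ({b, c} : Finset V) ⊆ X.filter (fun y => A a y) := by
    intro x hx
    rw [Finset.mem_insert, Finset.mem_singleton] at hx
    rw [Finset.mem_filter]
    rcases hx with rfl | rfl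
    · exact ⟨hb, h1⟩
    · exact ⟨hc, h2⟩
  have h4 := Finset.card_le_card h3
  rw [Finset.card_pair hbc] at h4
  exact h4

theorem Dig.card_D1 {r : ℕ} (h : Dig A r 4)
    (hF2 : ∀ v w y, D1 A v w → D1 A v y → w ≠ y → A w y ∨ A y w) (v : V) :
    (Finset.univ.filter (fun w => D1 A v w)).card ≤ 2 := by
  by_contra hcon
  push Not at hcon
  rw [Finset.two_lt_card] at hcon
  obtain ⟨a, ha, b, hb, c, hc, hab, hac, hbc⟩ := hcon
  rw [Finset.mem_filter] at ha hb hc
  have ha1 : a ∈ out A v := by rw [mem_out]; exact ha.2.1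
  have hb1 : b ∈ out A v := by rw [mem_out]; exact hb.2.1
  have hc1 : c ∈ out A v := by rw [mem_out]; exact hc.2.1
  have ea := ha.2.2
  have eb := hb.2.2
  have ec := hc.2.2
  rcases hF2 v a b ha.2 hb.2 hab with h1 | h1 <;> rcases hF2 v a c ha.2 hc.2 hac with h2 | h2 <;>
    rcases hF2 v b c hb.2 hc.2 hbc with h3 | h3
  · have := two_le_dg (A := A) hb1 hc1 hbc h1 h2; omega
  · have := two_le_dg (A := A) hb1 hc1 hbc h1 h2; omega
  · exact no3 h.hg (le_refl 4) h1 h3 h2
  · have := two_le_dg (A := A) ha1 hb1 hab h2 h3; omega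
  · have := two_le_dg (A := A) ha1 hc1 hac h1 h3; omega
  · exact no3 h.hg (le_refl 4) h1 h2 h3
  · have := two_le_dg (A := A) ha1 hc1 hac h1 h3; omega
  · have := two_le_dg (A := A) ha1 hb1 hab h2 h3; omega

end Pool.Agent.Helper24.C6
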