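import Pool.Agent.Helper24.C6.L0
import Pool.Agent.Helper24.C6.G4a
import Pool.Agent.Helper24.C6.G4b

/-!
Project C6, module G4: girth 4, `r = 4, 5, 6` (helper35).  `n ≤ 3 r` is impossible: `tight`, `card_in`, then:

`g4`: `r = 4, 5`: `L0` for `X = out A v` (`dg_ge`). `r = 6`: fix `v`.
 Case A: `D1(v)` has at most one element; it has one, `w` (as in `F2`). `X = out A v` without `w` (5 vertices): all
 others have `dg ≥ 2` in `out A v`, so `≥ 1` in `X`; `L0`: three of them have `dg A X = 1`, so they have an arc to
 `w`: a set `I` of 3 in-neighbours of `w` in `out A v`. `w'` (`Str A v w w'`) has `dg ≥ 2` in `out A v`, its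
 out-neighbours there avoid `w'`, `w` and `I` (`w' → x → w → w'`), `w' ∉ I`, so there are at most `6 - 5 = 1`.
 So every `D1(v)` has exactly two elements `a → b` (`F2`), `b = a'` (as `dg A (out A v) a = 1`), and `a, b` dominate
 `E = N2 A v`. `out A a = insert b E`; for `e ∈ E` no arc `e → b`; `dg A (out A a) e ≥ 1` (`dg_ge`), so
 `dg A E e ≥ 1`, `|E| = 5`, `L0`: three `e ∈ E` with `dg A E e = 1 = dg A (out A a) e`, in `D1(a)`: contradiction to
 `card_D1`.
-/

set_option autoImplicit false

namespace Pool.Agent.Helper24.C6

open Classical Pool.Agent.Helper24.CH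

variable {V : Type} [Fintype V] {A : V → V → Prop}

/-- Three elements of `out A v` with exactly one out-neighbour in `out A v` are impossible. -/
private theorem no_three {v : V}
    (hD : (Finset.univ.filter (fun w => D1 A v w)).card ≤ 2)
    (h3 : 3 ≤ ((out A v).filter (fun w => dg A (out A v) w = 1)).card) : False := by
  have h1 : (out A v).filter (fun w => dg A (out A v) w = 1) ⊆
      Finset.univ.filter (fun w => D1 A v w) := by
    intro w hw
    rw [Finset.mem_filter] at hw
    rw [Finset.mem_filter]
    exact ⟨Finset.mem_univ _, mem_out.1 hw.1, hw.2⟩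
  have := Finset.card_le_card h1
  omega

/-- Case A: `D1(v)` has at least two elements for `r = 6`. -/
private theorem two_D1 (h : Dig A 6 4) (hx : ∀ v, (N2 A v).card + 1 = 6) (v : V) :
    ∃ a b, D1 A v a ∧ D1 A v b ∧ a ≠ b := by
  by_contra hcon
  push Not at hcon
  obtain ⟨w, hw⟩ := h.exists_D1 (by norm_num) (by norm_num) hx v
  have huniq : ∀ x, D1 A v x → x = w := fun x hxD => hcon x w hxD hw
  have hwO : w ∈ out A v := mem_out.2 hw.1
  obtain ⟨w', hww', hS⟩ := h.str_of_D1 (by norm_num) (hx v) hw
  have hw'O : w' ∈ out A v := mem_out.2 hS.2.1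
  have hge : ∀ x ∈ out A v, x ≠ w → 2 ≤ dg A (out A v) x := by
    intro x hxO hne
    have h1 := h.dg_ge (by norm_num) (hx v) (mem_out.1 hxO)
    have h2 : dg A (out A v) x ≠ 1 := fun h3 => hne (huniq x ⟨mem_out.1 hxO, h3⟩)
    omega
  set X := (out A v).erase w with hX
  have hXc : X.card = 5 := by
    rw [hX, Finset.card_erase_of_mem hwO, h.hd v]
  have hdgX : ∀ x, dg A (out A v) x ≤ dg A X x + (if A x w then 1 else 0) := by
    intro x
    unfold dg
    split_ifs with hxw
    · have h1 : (out A v).filter (fun y => A x y) ⊆ insert w (X.filter (fun y => A x y)) := by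
        intro y hy
        rw [Finset.mem_filter] at hy
        by_cases hyw : y = w
        · rw [hyw]; exact Finset.mem_insert_self _ _
        · apply Finset.mem_insert_of_mem
          rw [Finset.mem_filter, hX, Finset.mem_erase]
          exact ⟨⟨hyw, hy.1⟩, hy.2⟩
      exact (Finset.card_le_card h1).trans (Finset.card_insert_le _ _)
    · have h1 : (out A v).filter (fun y => A x y) ⊆ X.filter (fun y => A x y) := by
        intro y hy
        rw [Finset.mem_filter] at hy
        rw [Finset.mem_filter, hX, Finset.mem_erase]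
        refine ⟨⟨?_, hy.1⟩, hy.2⟩
        rintro rfl
        exact hxw hy.2
      exact Finset.card_le_card h1
  have hd : ∀ x ∈ X, 1 ≤ dg A X x := by
    intro x hxX
    rw [hX, Finset.mem_erase] at hxX
    have h1 := hge x hxX.2 hxX.1
    have h2 := hdgX x
    split_ifs at h2 <;> omega
  have hL := L0 h.hg (Or.inr hXc) hd
  set I := X.filter (fun x => dg A X x = 1) with hI
  have hIw : ∀ x ∈ I, A x w := by
    intro x hxI
    rw [hI, Finset.mem_filter] at hxI
    obtain ⟨hxX, hx1⟩ := hxI
    rw [hX, Finset.mem_erase] at hxX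
    have h1 := hge x hxX.2 hxX.1
    have h2 := hdgX x
    by_contra hxw
    rw [if_neg hxw] at h2
    omega
  have hw'w : w' ≠ w := by
    rintro rfl
    exact no_loop h.hg (by norm_num) _ hww'
  have h2 := hge w' hw'O hw'w
  have hw'I : w' ∉ I := fun hc => no2 h.hg (by norm_num) hww' (hIw w' hc)
  have hwI : w ∉ I := by
    rw [hI, Finset.mem_filter, hX, Finset.mem_erase]
    exact fun hc => hc.1.1 rfl
  have hT : (insert w' (insert w I)).card = I.card + 2 := by
    rw [Finset.card_insert_of_notMem, Finset.card_insert_of_notMem hwI]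
    rw [Finset.mem_insert]
    rintro (hc | hc)
    · exact hw'w hc
    · exact hw'I hc
  have hTs : insert w' (insert w I) ⊆ out A v := by
    intro y hy
    rw [Finset.mem_insert, Finset.mem_insert] at hy
    rcases hy with rfl | rfl | hy
    · exact hw'O
    · exact hwO
    · rw [hI, Finset.mem_filter, hX, Finset.mem_erase] at hy
      exact hy.1.2
  have hdisj : Disjoint ((out A v).filter (fun y => A w' y)) (insert w' (insert w I)) := by
    rw [Finset.disjoint_left]
    intro y hy hyT
    rw [Finset.mem_filter] at hy
    rw [Finset.mem_insert, Finset.mem_insert] at hyT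
    rcases hyT with hc | hc | hc
    · rw [hc] at hy
      exact no_loop h.hg (by norm_num) _ hy.2
    · rw [hc] at hy
      exact no2 h.hg (by norm_num) hww' hy.2
    · exact no3 h.hg (by norm_num) hww' hy.2 (hIw y hc)
  have hun : ((out A v).filter (fun y => A w' y) ∪ insert w' (insert w I)) ⊆ out A v :=
    Finset.union_subset (Finset.filter_subset _ _) hTs
  have h5 := Finset.card_le_card hun
  rw [Finset.card_union_of_disjoint hdisj, hT, h.hd v] at h5
  unfold dg at h2
  omega

theorem g4 [Nonempty V] {r : ℕ} (h : Dig A r 4) (hr : r = 4 ∨ r = 5 ∨ r = 6) :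
    3 * r + 1 ≤ Fintype.card V := by
  by_contra hlt
  push Not at hlt
  have hr0 : 1 ≤ r := by omega
  have hr6 : r ≤ 6 := by omega
  obtain ⟨hn, hx, hpart⟩ := h.tight hr0 hr6 (by omega)
  have hin := h.card_in hr0 hn hx hpart
  have hF2 : ∀ v w y, D1 A v w → D1 A v y → w ≠ y → A w y ∨ A y w :=
    fun v w y h1 h2 h3 => h.F2 hr0 hr6 hx hin hpart h1 h2 h3
  have hD := h.card_D1 hF2
  by_cases hr45 : r = 4 ∨ r = 5
  · obtain ⟨v⟩ := (inferInstance : Nonempty V)
    have hc : (out A v).card = 4 ∨ (out A v).card = 5 := by
      rw [h.hd v]; exact hr45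
    have hL := L0 h.hg hc (fun x hxO => h.dg_ge (by norm_num) (hx v) (mem_out.1 hxO))
    exact no_three (hD v) hL
  · have hr' : r = 6 := by omega
    subst hr'
    obtain ⟨v⟩ := (inferInstance : Nonempty V)
    have key : ∀ a b, D1 A v a → D1 A v b → A a b → False := by
      intro a b ha hb hab
      obtain ⟨a', haa', hSa⟩ := h.str_of_D1 (by norm_num) (hx v) ha
      obtain ⟨b', hbb', hSb⟩ := h.str_of_D1 (by norm_num) (hx v) hb
      have hab' : a' = b := by
        obtain ⟨z, hz⟩ := Finset.card_eq_one.1 ha.2
        have h1 : a' ∈ (out A v).filter (fun y => A a y) :=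
          Finset.mem_filter.2 ⟨mem_out.2 hSa.2.1, haa'⟩
        have h2 : b ∈ (out A v).filter (fun y => A a y) :=
          Finset.mem_filter.2 ⟨mem_out.2 hb.1, hab⟩
        rw [hz, Finset.mem_singleton] at h1 h2
        rw [h1, h2]
      subst hab'
      set E := N2 A v with hE
      have hEc : E.card = 5 := by
        have h6 := hx v
        rw [← hE] at h6
        omega
      have houta : out A a = insert a' E := hSa.2.2.2
      have houtb : out A a' = insert b' E := hSb.2.2.2
      have hb_e : ∀ e ∈ E, A a' e := by
        intro e he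
        have : e ∈ out A a' := by
          rw [houtb]; exact Finset.mem_insert_of_mem he
        exact mem_out.1 this
      have ha_e : ∀ e ∈ E, A a e := by
        intro e he
        have : e ∈ out A a := by
          rw [houta]; exact Finset.mem_insert_of_mem he
        exact mem_out.1 this
      have hdg : ∀ e ∈ E, dg A (out A a) e = dg A E e := by
        intro e he
        unfold dg
        rw [houta, Finset.filter_insert, if_neg]
        exact no2 h.hg (by norm_num) (hb_e e he)
      have hd : ∀ e ∈ E, 1 ≤ dg A E e := by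
        intro e he
        rw [← hdg e he]
        exact h.dg_ge (by norm_num) (hx a) (ha_e e he)
      have hL := L0 h.hg (Or.inr hEc) hd
      have hsub : E.filter (fun w => dg A E w = 1) ⊆
          (out A a).filter (fun w => dg A (out A a) w = 1) := by
        intro e he
        rw [Finset.mem_filter] at he ⊢
        exact ⟨mem_out.2 (ha_e e he.1), by rw [hdg e he.1]; exact he.2⟩
      exact no_three (hD a) (hL.trans (Finset.card_le_card hsub))
    obtain ⟨a, b, ha, hb, hne⟩ := two_D1 h hx v
    rcases hF2 v a b ha hb hne with hab | hba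
    · exact key a b ha hb hab
    · exact key b a hb ha hba

end Pool.Agent.Helper24.C6
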