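import Pool.Agent.Helper24.C6.Local

/-!
Project C6, module G5a: girth 5 (helper35).

`G1`: let `E = N2 A v`, `|E| = r - 1`, `Str A v w w'`, `Str A v w' w''`. `N⁺(w) = {w'} ∪ E`, `w'` and `w` dominate `E`.
 Elements of `N⁺(E) \ E` are in `N2 A w` (`e → w'` and `e → w` are 2-cycles; not out-neighbours of `w`). Some
 `e ∈ E` has at most one out-neighbour in `E` (`ch_sub`, `r = 2`: `9 ≤ |E| ≤ 5` false), so at least
 `r - 1` elements outside `E`: `N2 A w` has `≥ r - 1` elements of `N⁺(E) \ E`; and `w'' ∈ N2 A w` (`w'' ∉ E` because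
 `A v w''`; `w''≠ w'` ok, `w'' ≠ w` 2-cycle). Suppose `|N2 A w| ≤ r - 1`. Then `N2 A w = N⁺(E) \ E =: F` has exactly
 `r - 1` elements and contains `w''`, and every `e ∈ E` has `≥ 1` out-neighbour in `E`; `|E| = r - 1 ≤ 5`, so by
 `small_cycle` (`g = 5`) `|E| = 5`, `r = 6`, all `dg A E e = 1`, so every `e` dominates `F ∋ w''`. But `w''` has an
 out-neighbour outside `N⁺(v)` (it has `r` out-neighbours, none is itself), in `N2 A v = E` (`out_subset`): 2-cycle.
-/

set_option autoImplicit false

namespace Pool.Agent.Helper24.C6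

open Classical Pool.Agent.Helper24.CH

variable {V : Type} [Fintype V] {A : V → V → Prop}

theorem Dig.G1 {r : ℕ} (h : Dig A r 5) (hr : r = 5 ∨ r = 6) {v w w' w'' : V}
    (hx : (N2 A v).card + 1 = r) (h1 : Str A v w w') (h2 : Str A v w' w'') :
    r ≤ (N2 A w).card := by
  by_contra hlt
  push Not at hlt
  obtain ⟨hvw, hvw', hw'E, hoW⟩ := h1
  obtain ⟨-, hvw'', hw''E, hoW'⟩ := h2
  have hww' : A w w' := by
    refine mem_out.1 ?_
    rw [hoW]
    exact Finset.mem_insert_self _ _
  have hw'w'' : A w' w'' := by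
    refine mem_out.1 ?_
    rw [hoW']
    exact Finset.mem_insert_self _ _
  have hwe : ∀ e ∈ N2 A v, A w e := fun e he => by
    refine mem_out.1 ?_
    rw [hoW]
    exact Finset.mem_insert_of_mem he
  have hw'e : ∀ e ∈ N2 A v, A w' e := fun e he => by
    refine mem_out.1 ?_
    rw [hoW']
    exact Finset.mem_insert_of_mem he
  have hsub : ∀ e ∈ N2 A v, out A e \ N2 A v ⊆ N2 A w := by
    intro e he y hy
    rw [Finset.mem_sdiff, mem_out] at hy
    obtain ⟨hey, hyE⟩ := hy
    rw [mem_N2]
    refine ⟨?_, ?_, e, hwe e he, hey⟩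
    · rintro rfl
      exact no2 h.hg (by norm_num) (hwe e he) hey
    · intro hwy
      replace hwy := mem_out.2 hwy
      rw [hoW, Finset.mem_insert] at hwy
      rcases hwy with rfl | hwy
      · exact no2 h.hg (by norm_num) (hw'e e he) hey
      · exact hyE hwy
  have hw''N : w'' ∈ N2 A w := by
    rw [mem_N2]
    refine ⟨?_, ?_, w', hww', hw'w''⟩
    · rintro rfl
      exact no2 h.hg (by norm_num) hww' hw'w''
    · intro hc
      replace hc := mem_out.2 hc
      rw [hoW, Finset.mem_insert] at hc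
      rcases hc with rfl | hc
      · exact no_loop h.hg (by norm_num) _ hw'w''
      · exact hw''E hc
  have hle5 : (N2 A v).card ≤ 5 := by omega
  have hne : (N2 A v).Nonempty := by
    rw [← Finset.card_pos]
    omega
  have hge1 : ∀ e ∈ N2 A v, 1 ≤ dg A (N2 A v) e := by
    intro e he
    have h3 := h.card_out_sdiff (N2 A v) e
    have h4 := Finset.card_le_card (hsub e he)
    omega
  obtain ⟨-, hall⟩ := small_cycle h.hg hne hle5 hge1
  have hdom : ∀ e ∈ N2 A v, A e w'' := by
    intro e he
    have h3 := h.card_out_sdiff (N2 A v) e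
    rw [hall e he] at h3
    have h5 : out A e \ N2 A v = N2 A w :=
      Finset.eq_of_subset_of_card_le (hsub e he) (by omega)
    have h6 : w'' ∈ out A e \ N2 A v := by
      rw [h5]
      exact hw''N
    exact mem_out.1 (Finset.mem_sdiff.1 h6).1
  have hex : ∃ e, A w'' e ∧ e ∉ out A v := by
    by_contra hc
    push Not at hc
    have hs : out A w'' ⊆ out A v := fun y hy => hc y (mem_out.1 hy)
    have he : out A w'' = out A v :=
      Finset.eq_of_subset_of_card_le hs (by rw [h.hd, h.hd])
    have h7 : w'' ∈ out A w'' := by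
      rw [he]
      exact mem_out.2 hvw''
    exact no_loop h.hg (by norm_num) _ (mem_out.1 h7)
  obtain ⟨e, hwe'', heV⟩ := hex
  have heE : e ∈ N2 A v := by
    rcases Finset.mem_union.1 (h.out_subset (by norm_num) hvw'' (mem_out.2 hwe'')) with h8 | h8
    · exact absurd h8 heV
    · exact h8
  exact no2 h.hg (by norm_num) hwe'' (hdom e heE)

end Pool.Agent.Helper24.C6
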