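import Pool.Agent.Helper24.C6.Defs

/-!
Project C6, module Group: pair count with the exact waste, and the grouping argument.

`pair_waste`: as `CH.pair_count` (Helper24/CH/PairCount.lean) with `W = univ`, but exact: for an ordered pair
`(v, u)`, `v ≠ u`, at most one of `u ∈ ball A R1 {v}`, `v ∈ ball A R2 {u}` holds (`NoShort.not_both`); the
pairs for which none holds are the waste. Sum over all pairs of
`[u ∈ ball A R1 {v}] + [v ∈ ball A R2 {u}] + [waste] = 1 + [u = v]`.

`group`: let `B = {v : c v = -1}`. For `e ∈ E(B)` (image) let `b e = #{v ∈ B : E v = e} ≥ 1`, so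
`|B| = ∑ b e`, the number of pairs is `∑ b e (b e - 1)`, and `∑_{v ∉ B} c v ≤ |B| - pairs = ∑ b e (2 - b e)
≤ |E(B)|`. For `e ∈ E(B)` the set `F e = {w : Rel w e ∧ 1 ≤ c w}` has `≥ 2` elements, these sets are disjoint
(`hrel`) and disjoint from `B`, and `c ≥ 0` off `B`: `∑_{v ∉ B} c v ≥ 2 |E(B)|`. So `E(B) = ∅`, `B = ∅`,
`c ≥ 0`, `∑ c ≤ 0`.
-/

set_option autoImplicit false

namespace Pool.Agent.Helper24.C6

open Classical Pool.Agent.Helper24.CH

variable {V : Type} [Fintype V] {A : V → V → Prop}

theorem pair_waste {g R1 R2 : ℕ} (hg : NoShort A g) (hR : R1 + R2 < g) :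
    ∑ v : V, (ball A R1 {v}).card + ∑ v : V, (ball A R2 {v}).card +
      ((Finset.univ : Finset (V × V)).filter (fun p => p.1 ≠ p.2 ∧ p.2 ∉ ball A R1 {p.1} ∧
        p.1 ∉ ball A R2 {p.2})).card = Fintype.card V * (Fintype.card V + 1) := by
  have e1 : ∑ v : V, (ball A R1 {v}).card
      = ∑ v : V, ∑ u : V, (if u ∈ ball A R1 {v} then 1 else 0) := by
    refine Finset.sum_congr rfl fun v _ => ?_
    rw [← Finset.card_filter, Finset.filter_mem_eq_inter, Finset.univ_inter]
  have e2 : ∑ v : V, (ball A R2 {v}).card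
      = ∑ v : V, ∑ u : V, (if v ∈ ball A R2 {u} then 1 else 0) := by
    rw [Finset.sum_comm]
    refine Finset.sum_congr rfl fun v _ => ?_
    rw [← Finset.card_filter, Finset.filter_mem_eq_inter, Finset.univ_inter]
  have e3 : ((Finset.univ : Finset (V × V)).filter (fun p => p.1 ≠ p.2 ∧ p.2 ∉ ball A R1 {p.1} ∧
        p.1 ∉ ball A R2 {p.2})).card
      = ∑ v : V, ∑ u : V, (if (v ≠ u ∧ u ∉ ball A R1 {v} ∧ v ∉ ball A R2 {u}) then 1 else 0) := by
    rw [Finset.card_filter, ← Finset.univ_product_univ, Finset.sum_product]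
  have e4 : Fintype.card V * (Fintype.card V + 1)
      = ∑ v : V, ∑ u : V, (1 + if v = u then 1 else 0) := by
    have : ∀ v : V, ∑ u : V, (1 + if v = u then 1 else 0) = Fintype.card V + 1 := by
      intro v
      rw [Finset.sum_add_distrib, Finset.sum_const, smul_eq_mul, mul_one, Finset.sum_ite_eq,
        if_pos (Finset.mem_univ v), Finset.card_univ]
    rw [Finset.sum_congr rfl fun v _ => this v, Finset.sum_const, smul_eq_mul, Finset.card_univ]
  rw [e1, e2, e3, e4, ← Finset.sum_add_distrib, ← Finset.sum_add_distrib]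
  refine Finset.sum_congr rfl fun v _ => ?_
  rw [← Finset.sum_add_distrib, ← Finset.sum_add_distrib]
  refine Finset.sum_congr rfl fun u _ => ?_
  by_cases hvu : v = u
  · subst hvu
    have h1 : v ∈ ball A R1 {v} := subset_ball _ _ (Finset.mem_singleton_self v)
    have h2 : v ∈ ball A R2 {v} := subset_ball _ _ (Finset.mem_singleton_self v)
    simp [h1, h2]
  · by_cases ha : u ∈ ball A R1 {v}
    · have hb : v ∉ ball A R2 {u} := hg.not_both hR hvu ha
      simp [ha, hb, hvu]
    · by_cases hb : v ∈ ball A R2 {u}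
      · simp [ha, hb, hvu]
      · simp [ha, hb, hvu]

theorem group (c : V → ℤ) (E : V → Finset V) (Rel : V → Finset V → Prop)
    (hc : ∀ v, -1 ≤ c v) (hrel : ∀ w E1 E2, Rel w E1 → Rel w E2 → E1 = E2)
    (hB : ∀ v, c v = -1 → 2 ≤ (Finset.univ.filter (fun w => Rel w (E v) ∧ 1 ≤ c w)).card)
    (hsum : ∑ v : V, c v + (((Finset.univ : Finset (V × V)).filter (fun p => p.1 ≠ p.2 ∧
      c p.1 = -1 ∧ c p.2 = -1 ∧ E p.1 = E p.2)).card : ℤ) ≤ 0) : ∀ v, c v = 0 := by
  set B : Finset V := Finset.univ.filter (fun v => c v = -1) with hBdef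
  set I : Finset (Finset V) := B.image E with hI
  have hmB : ∀ v, v ∈ B ↔ c v = -1 := by intro v; simp [hBdef]
  -- the number of pairs
  have hP : (((Finset.univ : Finset (V × V)).filter (fun p => p.1 ≠ p.2 ∧
      c p.1 = -1 ∧ c p.2 = -1 ∧ E p.1 = E p.2)).card : ℤ)
      = ∑ v ∈ B, (((B.filter (fun u => E u = E v)).card : ℤ) - 1) := by
    rw [Finset.card_filter, ← Finset.univ_product_univ, Finset.sum_product]
    push_cast
    have h1 : ∀ v : V, (∑ u : V, (if (v ≠ u ∧ c v = -1 ∧ c u = -1 ∧ E v = E u) then (1 : ℤ) else 0))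
        = if v ∈ B then (((B.filter (fun u => E u = E v)).card : ℤ) - 1) else 0 := by
      intro v
      by_cases hv : v ∈ B
      · rw [if_pos hv]
        have hv' := (hmB v).1 hv
        have h2 : (B.filter (fun u => E u = E v)).card
            = ((B.filter (fun u => E u = E v)).erase v).card + 1 := by
          rw [Finset.card_erase_add_one]
          exact Finset.mem_filter.2 ⟨hv, rfl⟩
        rw [h2]
        push_cast
        rw [add_sub_cancel_right, Finset.sum_boole]
        congr 2
        ext u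
        simp only [Finset.mem_filter, Finset.mem_univ, true_and, Finset.mem_erase, hmB]
        constructor
        · rintro ⟨a, b, c, d⟩
          exact ⟨fun h => a h.symm, c, d.symm⟩
        · rintro ⟨a, b, c⟩
          exact ⟨fun h => a h.symm, hv', b, c.symm⟩
      · rw [if_neg hv]
        refine Finset.sum_eq_zero fun u _ => ?_
        rw [if_neg]
        rintro ⟨_, h, _⟩
        exact hv ((hmB v).2 h)
    rw [Finset.sum_congr rfl fun v _ => h1 v, Finset.sum_ite_mem, Finset.univ_inter]
  -- `|B| - pairs ≤ |I|`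
  have hle : ∑ v ∈ B, (2 - ((B.filter (fun u => E u = E v)).card : ℤ)) ≤ I.card := by
    have h1 : ∑ v ∈ B, (2 - ((B.filter (fun u => E u = E v)).card : ℤ))
        = ∑ e ∈ I, ∑ v ∈ B.filter (fun v => E v = e),
            (2 - ((B.filter (fun u => E u = E v)).card : ℤ)) := by
      rw [Finset.sum_fiberwise_of_maps_to]
      intro v hv
      exact Finset.mem_image_of_mem E hv
    have h2 : ∀ e ∈ I, ∑ v ∈ B.filter (fun v => E v = e),
            (2 - ((B.filter (fun u => E u = E v)).card : ℤ)) ≤ 1 := by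
      intro e _
      have h3 : ∀ v ∈ B.filter (fun v => E v = e),
          (2 - ((B.filter (fun u => E u = E v)).card : ℤ))
            = 2 - ((B.filter (fun u => E u = e)).card : ℤ) := by
        intro v hv
        rw [(Finset.mem_filter.1 hv).2]
      rw [Finset.sum_congr rfl h3, Finset.sum_const, nsmul_eq_mul]
      nlinarith [sq_nonneg (((B.filter (fun u => E u = e)).card : ℤ) - 1)]
    rw [h1]
    calc _ ≤ ∑ e ∈ I, (1 : ℤ) := Finset.sum_le_sum h2
      _ = I.card := by simp
  -- lower bound of the sum of `c`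
  set F : Finset V → Finset V := fun e => Finset.univ.filter (fun w => Rel w e ∧ 1 ≤ c w) with hF
  have hdisj : (I : Set (Finset V)).PairwiseDisjoint F := by
    intro e1 _ e2 _ hne
    rw [Function.onFun, Finset.disjoint_left]
    intro w hw1 hw2
    exact hne (hrel w e1 e2 (Finset.mem_filter.1 hw1).2.1 (Finset.mem_filter.1 hw2).2.1)
  have hF2 : ∀ e ∈ I, 2 ≤ (F e).card := by
    intro e he
    obtain ⟨v, hv, rfl⟩ := Finset.mem_image.1 he
    exact hB v ((hmB v).1 hv)
  have hU : (2 * I.card : ℤ) ≤ ((I.biUnion F).card : ℤ) := by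
    rw [Finset.card_biUnion hdisj]
    have : ∑ e ∈ I, 2 ≤ ∑ e ∈ I, (F e).card := Finset.sum_le_sum hF2
    rw [Finset.sum_const, smul_eq_mul] at this
    push_cast
    have h' : ((I.card * 2 : ℕ) : ℤ) ≤ ((∑ e ∈ I, (F e).card : ℕ) : ℤ) := by exact_mod_cast this
    push_cast at h'
    linarith
  have hpoint : ∀ v : V, (if v ∈ I.biUnion F then (1 : ℤ) else 0) - (if v ∈ B then 1 else 0) ≤ c v := by
    intro v
    have hcv := hc v
    by_cases hv : v ∈ I.biUnion F
    · obtain ⟨e, _, hve⟩ := Finset.mem_biUnion.1 hv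
      have h1 : 1 ≤ c v := (Finset.mem_filter.1 hve).2.2
      rw [if_pos hv]
      split_ifs <;> omega
    · rw [if_neg hv]
      by_cases hvB : v ∈ B
      · rw [if_pos hvB]; omega
      · rw [if_neg hvB]
        have : c v ≠ -1 := fun h => hvB ((hmB v).2 h)
        omega
  have hlow : ((I.biUnion F).card : ℤ) - (B.card : ℤ) ≤ ∑ v : V, c v := by
    have := Finset.sum_le_sum (s := Finset.univ) fun v _ => hpoint v
    rw [Finset.sum_sub_distrib, Finset.sum_ite_mem, Finset.sum_ite_mem, Finset.univ_inter,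
      Finset.univ_inter] at this
    simpa using this
  have hsplit : ∑ v ∈ B, (2 - ((B.filter (fun u => E u = E v)).card : ℤ))
      = B.card - ∑ v ∈ B, (((B.filter (fun u => E u = E v)).card : ℤ) - 1) := by
    rw [Finset.card_eq_sum_ones]
    push_cast
    rw [← Finset.sum_sub_distrib]
    refine Finset.sum_congr rfl fun v _ => ?_
    ring
  rw [hP] at hsum
  have hI0 : (I.card : ℤ) ≤ 0 := by linarith
  have hI1 : I = ∅ := by
    rw [← Finset.card_eq_zero]
    omega
  have hB0 : B = ∅ := by
    rw [hI, Finset.image_eq_empty] at hI1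
    exact hI1
  have hpos : ∀ v ∈ (Finset.univ : Finset V), 0 ≤ c v := by
    intro v _
    have h1 : c v ≠ -1 := by
      intro h
      have := (hmB v).2 h
      rw [hB0] at this
      simp at this
    have := hc v
    omega
  have hs0 : ∑ v : V, c v = 0 := by
    refine le_antisymm ?_ (Finset.sum_nonneg hpos)
    rw [hB0] at hsum
    simpa using hsum
  intro v
  exact (Finset.sum_eq_zero_iff_of_nonneg hpos).1 hs0 v (Finset.mem_univ v)

end Pool.Agent.Helper24.C6
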