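import Pool.Agent.Helper24.C6.L5
import Pool.Agent.Helper24.C6.Group
import Pool.Agent.Helper24.C6.G5a

/-!
Project C6, module G5: girth 5, `r = 5, 6` (helper35).  `n ≤ 4 r` is impossible.

`two_rel`: `L5` for `X = out A v` (all `dg ≥ 1` by `dg_ge`) gives two `w ∈ out A v` with `D1 A v w` and
 `D1 A v w'` for the out-neighbour `w'`; `str_of_D1` twice, `rel_of_str`, `G1`.
`g5`: suppose `n ≤ 4 r`; `c v = 2 |N2 v| + 2 r + 1 - n` (integer), `E = N2 A`, `Rel = Rel A`. `c v ≥ -1` by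
 `x2_ge`; `c v = -1` iff `n = 4 r` and `|N2 v| = r - 1`, then `two_rel` gives `hB` (`c w ≥ 1` if `|N2 w| ≥ r`).
 `pair_waste` with `R1 = R2 = 2`: `∑ c + waste = 0` and pairs with `E p.1 = E p.2` are waste (`twin` twice).
 `group`: `c v = 0` for all `v`, so `2 |N2 v| = n - 1 - 2 r ≤ 2 r - 1`, `|N2 v| ≤ r - 1`, `= r - 1` (`x2_ge`),
 `two_rel` gives `w` with `|N2 w| ≥ r`, contradiction.
-/

set_option autoImplicit false

namespace Pool.Agent.Helper24.C6

open Classical Pool.Agent.Helper24.CH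

variable {V : Type} [Fintype V] {A : V → V → Prop}

theorem Dig.two_rel {r : ℕ} (h : Dig A r 5) (hr : r = 5 ∨ r = 6) {v : V}
    (hx : (N2 A v).card + 1 = r) :
    2 ≤ (Finset.univ.filter (fun w => Rel A w (N2 A v) ∧ r ≤ (N2 A w).card)).card := by
  sorry

theorem g5 [Nonempty V] {r : ℕ} (h : Dig A r 5) (hr : r = 5 ∨ r = 6) :
    4 * r + 1 ≤ Fintype.card V := by
  sorry

end Pool.Agent.Helper24.C6
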