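import Pool.Agent.Helper24.C6.H6
import Pool.Agent.Helper24.C6.Group

/-!
Project C6, module G6 (`r = g = 6`): `n ≤ 30` is impossible.

`val`: `a = |N2 v|`, `b = |N3 v|`. `a ≥ 5` (`x2_ge`). `a = 5`: `b ≥ 6` (`c1`). `a = 6`: `b ≥ 5` (`h6`).
 `a ≥ 7`: `b ≥ 4` or `a ≥ 10` (`c2`), so `2 a + b ≥ 18`.
`g6`: suppose `n ≤ 30`; `c v = 2 |N2 v| + |N3 v| + 13 - n`, `E = N2 A`, `Rel = Rel A`. By `val` `2 a + b ≥ 16`, so
 `c ≥ -1`, with `c v = -1` only if `n = 30`, `(a, b) = (5, 6)`; then the 6 elements `w` of `out A v` satisfy `Rel A w (N2 A v)` and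
 `|N2 w| ≥ 7` (`c1`), so `c w ≥ 18 + 13 - 30 = 1`: `hB`. `pair_waste` with `R1 = 2`, `R2 = 3` (`card_two`, `card_three`): `∑ c + waste = 0`,
 and a pair with `c = -1` twice and `N2 p.1 = N2 p.2` is waste (`twin3` in both directions, `ball A 2 ⊆ ball A 3`).
 `group`: `c v = 0` for all `v`: `2 a + b = n - 13 ≤ 17` for all `v`, so no vertex has `|N2| ≥ 7` (`val`), so none has `|N2| = 5`
 (`c1`; `out A v` is nonempty), so all `|N2| = 6`, `|N3| ≤ 5`, contradiction to `h6`.
-/

set_option autoImplicit false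

namespace Pool.Agent.Helper24.C6

open Classical Pool.Agent.Helper24.CH

variable {V : Type} [Fintype V] {A : V → V → Prop}

theorem Dig.val (h : Dig A 6 6) (v : V) :
    ((N2 A v).card = 5 ∧ 6 ≤ (N3 A v).card) ∨ ((N2 A v).card = 6 ∧ 5 ≤ (N3 A v).card) ∨
      (7 ≤ (N2 A v).card ∧ 18 ≤ 2 * (N2 A v).card + (N3 A v).card) := by
  have h5 := h.x2_ge (by norm_num) (by norm_num) (by norm_num) v
  rcases Nat.lt_or_ge (N2 A v).card 6 with h6 | h6
  · left
    have h7 : (N2 A v).card = 5 := by omega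
    exact ⟨h7, (h.c1 h7).1⟩
  · rcases Nat.lt_or_ge (N2 A v).card 7 with h7 | h7
    · right
      left
      have h8 : (N2 A v).card = 6 := by omega
      refine ⟨h8, ?_⟩
      by_contra hc
      have := (h.h6 h8 (by omega)).1
      omega
    · right
      right
      refine ⟨h7, ?_⟩
      by_cases h9 : (N3 A v).card ≤ 3
      · have := h.c2 h9
        omega
      · omega

theorem g6 [Nonempty V] (h : Dig A 6 6) : 31 ≤ Fintype.card V := by
  by_contra hn
  have hn30 : Fintype.card V ≤ 30 := by omega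
  let c : V → ℤ := fun v => 2 * ((N2 A v).card : ℤ) + ((N3 A v).card : ℤ) + 13 - (Fintype.card V : ℤ)
  have hcdef : ∀ v, c v = 2 * ((N2 A v).card : ℤ) + ((N3 A v).card : ℤ) + 13 -
      (Fintype.card V : ℤ) := fun v => rfl
  have hc : ∀ v, -1 ≤ c v := by
    intro v
    have h1 := h.val v
    rw [hcdef]
    omega
  have hbad : ∀ v, c v = -1 → (N2 A v).card = 5 := by
    intro v hv
    have h1 := h.val v
    rw [hcdef] at hv
    omega
  have hgood : ∀ v, 7 ≤ (N2 A v).card → 1 ≤ c v := by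
    intro v hv
    have h1 := h.val v
    rw [hcdef]
    omega
  have hB : ∀ v, c v = -1 →
      2 ≤ (Finset.univ.filter (fun w => Rel A w (N2 A v) ∧ 1 ≤ c w)).card := by
    intro v hv
    have h1 := (h.c1 (hbad v hv)).2
    have h2 : out A v ⊆ Finset.univ.filter (fun w => Rel A w (N2 A v) ∧ 1 ≤ c w) := by
      intro w hw
      have h3 := h1 w (mem_out.1 hw)
      exact Finset.mem_filter.2 ⟨Finset.mem_univ _, h3.1, hgood w h3.2⟩
    have h3 := Finset.card_le_card h2
    rw [h.hd v] at h3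
    omega
  have hsum : ∑ v : V, c v + (((Finset.univ : Finset (V × V)).filter (fun p => p.1 ≠ p.2 ∧
      c p.1 = -1 ∧ c p.2 = -1 ∧ N2 A p.1 = N2 A p.2)).card : ℤ) ≤ 0 := by
    have h1 := pair_waste (A := A) h.hg (R1 := 2) (R2 := 3) (by norm_num)
    have h2 : (Finset.univ : Finset (V × V)).filter (fun p => p.1 ≠ p.2 ∧
        c p.1 = -1 ∧ c p.2 = -1 ∧ N2 A p.1 = N2 A p.2) ⊆
        (Finset.univ : Finset (V × V)).filter (fun p => p.1 ≠ p.2 ∧ p.2 ∉ ball A 2 {p.1} ∧
        p.1 ∉ ball A 3 {p.2}) := by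
      intro p hp
      obtain ⟨hne, hc1, hc2, hE⟩ := (Finset.mem_filter.1 hp).2
      refine Finset.mem_filter.2 ⟨Finset.mem_univ _, hne, ?_, ?_⟩
      · intro hb
        exact h.twin3 hne (hbad _ hc1) hE (ball_subset_ball_of_le (by norm_num) _ hb)
      · exact h.twin3 hne.symm (hbad _ hc2) hE.symm
    have h3 := Finset.card_le_card h2
    have h4 : ∑ v : V, ((ball A 2 {v}).card + (ball A 3 {v}).card : ℤ) =
        ∑ v : V, (c v + ((Fintype.card V : ℤ) + 1)) := by
      refine Finset.sum_congr rfl fun v _ => ?_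
      rw [h.card_two (by norm_num) v, h.card_three (by norm_num) v, hcdef]
      push_cast
      ring
    rw [Finset.sum_add_distrib, Finset.sum_add_distrib, Finset.sum_const, Finset.card_univ,
      nsmul_eq_mul] at h4
    have h5 : (∑ v : V, ((ball A 2 {v}).card : ℤ) + ∑ v : V, ((ball A 3 {v}).card : ℤ)) +
        (((Finset.univ : Finset (V × V)).filter (fun p => p.1 ≠ p.2 ∧ p.2 ∉ ball A 2 {p.1} ∧
        p.1 ∉ ball A 3 {p.2})).card : ℤ) = (Fintype.card V : ℤ) * ((Fintype.card V : ℤ) + 1) := by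
      exact_mod_cast h1
    have h6 : (((Finset.univ : Finset (V × V)).filter (fun p => p.1 ≠ p.2 ∧
        c p.1 = -1 ∧ c p.2 = -1 ∧ N2 A p.1 = N2 A p.2)).card : ℤ) ≤
        (((Finset.univ : Finset (V × V)).filter (fun p => p.1 ≠ p.2 ∧ p.2 ∉ ball A 2 {p.1} ∧
        p.1 ∉ ball A 3 {p.2})).card : ℤ) := by
      exact_mod_cast h3
    linarith
  have hzero := group c (fun v => N2 A v) (Rel A) hc
    (fun w E1 E2 h1 h2 => rel_unique h.hg (by norm_num) h1 h2) hB hsum
  have hle : ∀ v, (N2 A v).card ≤ 6 := by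
    intro v
    by_contra hlt
    have h1 := hgood v (by omega)
    have h2 := hzero v
    omega
  obtain ⟨v⟩ := ‹Nonempty V›
  have h1 := h.val v
  have h2 := hle v
  rcases Nat.lt_or_ge (N2 A v).card 6 with h3 | h3
  · have h4 : (N2 A v).card = 5 := by omega
    have h5 : (out A v).Nonempty := by
      rw [← Finset.card_pos, h.hd v]
      norm_num
    obtain ⟨w, hw⟩ := h5
    have h6 := ((h.c1 h4).2 w (mem_out.1 hw)).2
    have h7 := hle w
    omega
  · have h4 : (N2 A v).card = 6 := by omega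
    have h5 := hzero v
    rw [hcdef] at h5
    obtain ⟨-, w, hw⟩ := h.h6 h4 (by omega)
    have h7 := hle w
    omega

end Pool.Agent.Helper24.C6
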