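import Pool.Agent.Helper24.C6.H6a

/-!
Project C6, module H6 (`r = g = 6`): `|N_2(v)| = 6`, `|N_3(v)| ≤ 5` gives a vertex `w` with `|N_2(w)| ≥ 7`.

Proof. `W = out A v ∪ N2 A v`, `|W| = 12`. For `x ∈ W`: `out A x ⊆ W ∪ N3 A v` (not `v`: `no2`, `no3`), so
 `dg A W x ≥ 1`. Let `H ⊆ W` be a nonempty set closed under out-neighbours in `W` with `|H|` minimal: then
 `Strong A H` (a nonempty subset of `H` closed in `H` is closed in `W`), every `x ∈ H` has `dg A H x ≥ 1`, so every `x ∈ H`
 also has an in-neighbour in `H` (`Strong`: otherwise `H` without `x` is closed; it is nonempty by `no_loop`).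
 `|H| ≥ 6` (`exists_sink`).
(i) `|H| = 6`: `small_cycle`: `dg A H x = 1`, so `out A x \ H` has 5 elements and is contained in `N3 A v`
 (`|N3 A v| ≤ 5`): it is `N3 A v`. `dom7` with `X = H`, `E = N3 A v`.
(ii) `h = |H| ≥ 7`. Let `T = H ∩ out A v`, `p = |T|`, `Q = H \ T ⊆ N2 A v`, `q = |Q| ≤ 6`, so `p ≥ 1`; `Q ≠ ∅` as `p ≤ 6`.
 `b_R(x) = |ball (res A H) R {x}|`. For `t ∈ T`: `out A t ⊆ W`, so `⊆ H`: `b_1(t) = 7`, and `ball_grow` (project CH, Grow.lean)
 `b_2(t) ≥ 8`, `b_3(t) ≥ 9`: `(b_2 - 1) + (b_3 - 1) ≥ 15`. For `x ∈ H`: `b_2(x) ≥ 3`, `b_3(x) ≥ 4` (`ball_grow_add`): `≥ 5`.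
 `Strong`: `H \ Q = T` ... some `x1 ∈ Q` has an out-neighbour `t ∈ T` (otherwise `Q` is closed in `H`, so `Q = H`): `b_2(x1) ≥ b_1(t) + 1
 = 8`, `b_3(x1) ≥ b_2(t) + 1 ≥ 9` (`x1` is not in these balls of `t`, `NoShort`): `≥ 15`. If `q ≥ 2`: some `x2 ∈ Q`, `x2 ≠ x1`,
 has an arc to `T ∪ {x1}` (otherwise `Q` without `x1` is closed): `b_2(x2) ≥ 3`, and `b_3(x2) ≥ b_1(t') + 2 ≥ 9` or more:
 if `x2 → t ∈ T` then 15 as before, if `x2 → x1 → t`: `b_3(x2) ≥ b_2(x1) + 1 ≥ 9`: `≥ 2 + 8 = 10`.
 `pair_count` (project CH) for `res A H`, `W = H`, radii 2, 3: `∑ (b_2 - 1) + ∑ (b_3 - 1) ≤ h (h - 1)`.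
 `q ≥ 2`: `15 p + 15 + 10 + 5 (q - 2) = 15 p + 5 q + 15 ≤ (p + q) (p + q - 1)`, with `p, q ≤ 6`, `p + q ≥ 7`: false.
 `q = 1`: `15 p + 15 ≤ (p + 1) p`, `p = 6`: false.
-/

set_option autoImplicit false

namespace Pool.Agent.Helper24.C6

open Classical Pool.Agent.Helper24.CH

variable {V : Type} [Fintype V] {A : V → V → Prop}

theorem Dig.h6 (h : Dig A 6 6) {v : V} (h2 : (N2 A v).card = 6) (h3 : (N3 A v).card ≤ 5) :
    5 ≤ (N3 A v).card ∧ ∃ w, 7 ≤ (N2 A w).card := by
  set W : Finset V := out A v ∪ N2 A v with hW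
  have hout : (out A v).card = 6 := h.hd v
  -- out-neighbours of the elements of `W`
  have hWs : ∀ x ∈ W, ∀ y, A x y → y ∈ W ∨ y ∈ N3 A v := by
    intro x hx y hxy
    rcases Finset.mem_union.1 hx with hx | hx
    · left
      exact h.out_subset (by norm_num) (mem_out.1 hx) (mem_out.2 hxy)
    · by_cases hy : y ∈ ball A 2 {v}
      · left
        obtain ⟨_, _, w, hvw, hwx⟩ := mem_N2.1 hx
        have hyv : y ≠ v := by
          rintro rfl
          exact no3 h.hg (by norm_num) hvw hwx hxy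
        by_cases hvy : A v y
        · exact Finset.mem_union_left _ (mem_out.2 hvy)
        · rcases mem_ball_two.1 hy with h1 | h1 | h1
          · exact absurd h1 hyv
          · exact absurd h1 hvy
          · exact Finset.mem_union_right _ (mem_N2.2 ⟨hyv, hvy, h1⟩)
      · right
        exact mem_N3.2 ⟨hy, x, hx, hxy⟩
  have hWdg : ∀ x ∈ W, 1 ≤ dg A W x := by
    intro x hx
    have h4 := h.card_out_sdiff W x
    have h5 : out A x \ W ⊆ N3 A v := by
      intro y hy
      obtain ⟨hy1, hy2⟩ := Finset.mem_sdiff.1 hy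
      rcases hWs x hx y (mem_out.1 hy1) with h6 | h6
      · exact absurd h6 hy2
      · exact h6
    have h6 := Finset.card_le_card h5
    omega
  have hWne : W.Nonempty := by
    have h4 : (out A v).Nonempty := by
      rw [← Finset.card_pos]
      omega
    exact h4.mono Finset.subset_union_left
  -- a minimal closed set
  obtain ⟨H, hHmem, hHmin⟩ := Finset.exists_min_image
    (W.powerset.filter (fun K => K.Nonempty ∧ ∀ x ∈ K, ∀ y ∈ W, A x y → y ∈ K))
    (fun K => K.card)
    ⟨W, Finset.mem_filter.2 ⟨Finset.mem_powerset.2 (Finset.Subset.refl _), hWne,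
      fun x _ y hy _ => hy⟩⟩
  obtain ⟨hHW, hHne, hHc⟩ := Finset.mem_filter.1 hHmem
  rw [Finset.mem_powerset] at hHW
  have hs : Strong A H := by
    intro K hK hKne hKc
    have h4 : K ∈ W.powerset.filter
        (fun K => K.Nonempty ∧ ∀ x ∈ K, ∀ y ∈ W, A x y → y ∈ K) := by
      refine Finset.mem_filter.2 ⟨Finset.mem_powerset.2 (hK.trans hHW), hKne, ?_⟩
      intro x hx y hy hxy
      exact hKc x hx y (hHc x (hK hx) y hy hxy) hxy
    exact Finset.eq_of_subset_of_card_le hK (hHmin K h4)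
  have hHdg : ∀ x ∈ H, 1 ≤ dg A H x := by
    intro x hx
    have h4 : W.filter (fun y => A x y) ⊆ H.filter (fun y => A x y) := by
      intro y hy
      obtain ⟨hy1, hy2⟩ := Finset.mem_filter.1 hy
      exact Finset.mem_filter.2 ⟨hHc x hx y hy1 hy2, hy2⟩
    exact (hWdg x (hHW hx)).trans (Finset.card_le_card h4)
  have hin : ∀ w ∈ H, ∃ z ∈ H, A z w := by
    intro w hw
    by_contra hno
    push Not at hno
    have h4 : 0 < (H.filter (fun y => A w y)).card := hHdg w hw
    obtain ⟨y, hy⟩ := Finset.card_pos.1 h4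
    obtain ⟨hyH, hwy⟩ := Finset.mem_filter.1 hy
    have hyw : y ≠ w := by
      rintro rfl
      exact no_loop h.hg (by norm_num) y hwy
    have h5 := hs (H.erase w) (Finset.erase_subset _ _)
      ⟨y, Finset.mem_erase.2 ⟨hyw, hyH⟩⟩ (by
        intro x hx z hz hxz
        refine Finset.mem_erase.2 ⟨?_, hz⟩
        rintro rfl
        exact hno x (Finset.mem_of_mem_erase hx) hxz)
    have h6 : w ∈ H.erase w := by rw [h5]; exact hw
    exact Finset.notMem_erase w H h6
  have hH6 : 6 ≤ H.card := by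
    by_contra hlt
    obtain ⟨x, hx, hx0⟩ := exists_sink h.hg hHne (by omega)
    have := hHdg x hx
    omega
  rcases Nat.eq_or_lt_of_le hH6 with hH | hH
  · -- `|H| = 6`
    obtain ⟨_, hdg1⟩ := small_cycle h.hg hHne (by omega) hHdg
    have hsub : ∀ x ∈ H, out A x \ H ⊆ N3 A v := by
      intro x hx y hy
      obtain ⟨hy1, hy2⟩ := Finset.mem_sdiff.1 hy
      rcases hWs x (hHW hx) y (mem_out.1 hy1) with h6 | h6
      · exact absurd (hHc x hx y h6 (mem_out.1 hy1)) hy2
      · exact h6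
    have hcard : ∀ x ∈ H, (out A x \ H).card = 5 := by
      intro x hx
      have h4 := h.card_out_sdiff H x
      have h5 := hdg1 x hx
      omega
    obtain ⟨x0, hx0⟩ := hHne
    have h5 : 5 ≤ (N3 A v).card := by
      have h4 := Finset.card_le_card (hsub x0 hx0)
      rw [hcard x0 hx0] at h4
      exact h4
    refine ⟨h5, x0, ?_⟩
    refine h.dom7 (X := H) (E := N3 A v) (by omega) ?_ ?_ x0 hx0
    · rw [Finset.disjoint_left]
      intro y hyH hy3
      have h6 := (mem_N3.1 hy3).1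
      apply h6
      rcases Finset.mem_union.1 (hHW hyH) with h7 | h7
      · exact mem_ball_two.2 (Or.inr (Or.inl (mem_out.1 h7)))
      · exact mem_ball_two.2 (Or.inr (Or.inr (mem_N2.1 h7).2.2))
    · intro x hx
      have h6 : out A x \ H = N3 A v := by
        refine Finset.eq_of_subset_of_card_le (hsub x hx) ?_
        rw [hcard x hx]
        exact h3
      have h7 : (H.filter (fun y => A x y)).card = 1 := hdg1 x hx
      obtain ⟨y, hy⟩ := Finset.card_eq_one.1 h7
      have hymem : y ∈ H.filter (fun y => A x y) := by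
        rw [hy]
        exact Finset.mem_singleton_self y
      obtain ⟨hyH, hxy⟩ := Finset.mem_filter.1 hymem
      refine ⟨y, hyH, ?_⟩
      ext z
      rw [Finset.mem_insert, ← h6, Finset.mem_sdiff]
      constructor
      · intro hz
        by_cases hzH : z ∈ H
        · left
          have h8 : z ∈ H.filter (fun y => A x y) :=
            Finset.mem_filter.2 ⟨hzH, mem_out.1 hz⟩
          rw [hy] at h8
          exact Finset.mem_singleton.1 h8
        · exact Or.inr ⟨hz, hzH⟩
      · rintro (rfl | hz)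
        · exact mem_out.2 hxy
        · exact hz.1
  · -- `|H| ≥ 7`
    exfalso
    refine h.no_big (H := H) (T := H ∩ out A v) hs hin Finset.inter_subset_left ?_ ?_ ?_ hH
    · intro t ht y hy
      obtain ⟨htH, htv⟩ := Finset.mem_inter.1 ht
      have h4 : y ∈ W := h.out_subset (by norm_num) (mem_out.1 htv) hy
      exact hHc t htH y h4 (mem_out.1 hy)
    · have h4 := Finset.card_le_card (Finset.inter_subset_right : H ∩ out A v ⊆ out A v)
      omega
    · have h4 : H \ (H ∩ out A v) ⊆ N2 A v := by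
        intro y hy
        obtain ⟨hyH, hy2⟩ := Finset.mem_sdiff.1 hy
        rcases Finset.mem_union.1 (hHW hyH) with h7 | h7
        · exact absurd (Finset.mem_inter.2 ⟨hyH, h7⟩) hy2
        · exact h7
      have h5 := Finset.card_le_card h4
      omega

end Pool.Agent.Helper24.C6
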