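import Pool.Agent.Helper24.C6.Dom

/-!
Project C6, module H6a: case (ii) of the proof of `h6` (`r = g = 6`): `|N_2(v)| = 6`, `|N_3(v)| ≤ 5` gives a vertex `w` with `|N_2(w)| ≥ 7`.

Proof. `W = out A v ∪ N2 A v`, `|W| = 12`. For `x ∈ W`: `out A x ⊆ W ∪ N3 A v` (not `v`: `no2`, `no3`), so
 `dg A W x ≥ 1`. Let `H ⊆ W` be a nonempty set closed under out-neighbours in `W` with `|H|` minimal: then
 `Strong A H` (a nonempty subset of `H` closed in `H` is closed in `W`), every `x ∈ H` has `dg A H x ≥ 1`, so every `x ∈ H`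
 also has an in-neighbour in `H` (`Strong`: otherwise `H` without `x` is closed; it is nonempty by `no_loop`).
 `|H| ≥ 6` (`exists_sink`).
(i) `|H| = 6`: `small_cycle`: `dg A H x = 1`, so `out A x \ H` has 5 elements and is contained in `N3 A v`
 (`|N3 A v| ≤ 5`): it is `N3 A v`. `dom7` with `X = H`, `E = N3 A v`.
(ii) `h = |H| ≥ 7`. Let `T = H ∩ out A v`, `p = |T|`, `Q = H \ T ⊆ N2 A v`, `q = |Q| ≤ 6`, so `p ≥ 1`; `Q ≠ ∅` as `p ≤ 6`.
 `b_R(x) = |ball (res A H) R {x}|`. For `t ∈ T`: `out A t ⊆ W`, so `⊆ H`: `b_1(t) = 7`, and `ball_grow` (project CH, Grow.lean)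
 `b_2(t) ≥ 8`, `b_3(t) ≥ 9`: `(b_2 - 1) + (b_3 - 1) ≥ 15`. For `x ∈ H`: `b_2(x) ≥ 3`, `b_3(x) ≥ 4` (`ball_grow_add`): `≥ 5`.
 `Strong`: `H \ Q = T` ... some `x1 ∈ Q` has an out-neighbour `t ∈ T` (otherwise `Q` is closed in `H`, so `Q = H`): `b_2(x1) ≥ b_1(t) + 1
 = 8`, `b_3(x1) ≥ b_2(t) + 1 ≥ 9` (`x1` is not in these balls of `t`, `NoShort`): `≥ 15`. If `q ≥ 2`: some `x2 ∈ Q`, `x2 ≠ x1`,
 has an arc to `T ∪ {x1}` (otherwise `Q` without `x1` is closed): `b_2(x2) ≥ 3`, and `b_3(x2) ≥ b_1(t') + 2 ≥ 9` or more: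
 if `x2 → t ∈ T` then 15 as before, if `x2 → x1 → t`: `b_3(x2) ≥ b_2(x1) + 1 ≥ 9`: `≥ 2 + 8 = 10`.
 `pair_count` (project CH) for `res A H`, `W = H`, radii 2, 3: `∑ (b_2 - 1) + ∑ (b_3 - 1) ≤ h (h - 1)`.
 `q ≥ 2`: `15 p + 15 + 10 + 5 (q - 2) = 15 p + 5 q + 15 ≤ (p + q) (p + q - 1)`, with `p, q ≤ 6`, `p + q ≥ 7`: false.
 `q = 1`: `15 p + 15 ≤ (p + 1) p`, `p = 6`: false.
-/

set_option autoImplicit false

namespace Pool.Agent.Helper24.C6

open Classical Pool.Agent.Helper24.CH

variable {V : Type} [Fintype V] {A : V → V → Prop}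

theorem arith6 {p q : ℕ} (hp : p ≤ 6) (hq : q ≤ 6) (hpq : 7 ≤ p + q) :
    (p + q) * (p + q - 1) < 15 * p + 5 * q + 15 ∧ (q = 1 → (p + 1) * p < 15 * p + 15) := by
  interval_cases p <;> interval_cases q <;> omega

/-- Balls of the end of an arc. -/
private theorem ball_arc {g : ℕ} (hg : NoShort A g) {H : Finset V} {x y : V} (hx : x ∈ H)
    (hy : y ∈ H) (hxy : A x y) {R : ℕ} (hR : R + 1 < g) :
    (ball (res A H) R {y}).card + 1 ≤ (ball (res A H) (R + 1) {x}).card := by
  have hn : x ∉ ball (res A H) R {y} := (hg.res H) x y ⟨hx, hy, hxy⟩ R hR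
  rw [← Finset.card_insert_of_notMem hn]
  apply Finset.card_le_card
  intro z hz
  rw [mem_ball_succ_left]
  rcases Finset.mem_insert.1 hz with hz | hz
  · exact Or.inl hz
  · exact Or.inr ⟨y, ⟨hx, hy, hxy⟩, hz⟩

/-- Case (ii). -/
theorem Dig.no_big (h : Dig A 6 6) {H T : Finset V} (hs : Strong A H)
    (hin : ∀ w ∈ H, ∃ z ∈ H, A z w) (hT : T ⊆ H) (hTout : ∀ t ∈ T, out A t ⊆ H)
    (hp : T.card ≤ 6) (hq : (H \ T).card ≤ 6) (hH : 7 ≤ H.card) : False := by
  have hcard : (H \ T).card + T.card = H.card := Finset.card_sdiff_add_card_eq_card hT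
  have hQH : H \ T ⊆ H := Finset.sdiff_subset
  -- lower bounds
  have hT1 : ∀ t ∈ T, (ball (res A H) 1 {t}).card = 7 := by
    intro t ht
    have hsub : ball A 1 {t} ⊆ H := by
      intro y hy
      rcases mem_ball_one.1 hy with hy | hy
      · rw [hy]; exact hT ht
      · exact hTout t ht (mem_out.2 hy)
    rw [ball_res_eq hsub, h.card_one (by norm_num) t]
  have hT2 : ∀ t ∈ T, 8 ≤ (ball (res A H) 2 {t}).card := by
    intro t ht
    have h1 := ball_grow h.hg hs hin (hT ht) (R := 1) (by norm_num)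
    rw [hT1 t ht] at h1
    exact h1
  have hT3 : ∀ t ∈ T, 9 ≤ (ball (res A H) 3 {t}).card := by
    intro t ht
    have h1 := ball_grow h.hg hs hin (hT ht) (R := 2) (by norm_num)
    have h2 := hT2 t ht
    have h3 : (ball (res A H) (2 + 1) {t}).card = (ball (res A H) 3 {t}).card := rfl
    omega
  have hall : ∀ x ∈ H, 3 ≤ (ball (res A H) 2 {x}).card ∧ 4 ≤ (ball (res A H) 3 {x}).card := by
    intro x hx
    have h1 := ball_grow_add h.hg hs hin hx (R := 0) (d := 2) (by norm_num)
    have h2 := ball_grow_add h.hg hs hin hx (R := 0) (d := 3) (by norm_num)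
    rw [ball_zero, Finset.card_singleton] at h1 h2
    exact ⟨h1, h2⟩
  have harc : ∀ x ∈ H, ∀ t ∈ T, A x t →
      8 ≤ (ball (res A H) 2 {x}).card ∧ 9 ≤ (ball (res A H) 3 {x}).card := by
    intro x hx t ht hxt
    have h1 := ball_arc h.hg hx (hT ht) hxt (R := 1) (by norm_num)
    have h2 := ball_arc h.hg hx (hT ht) hxt (R := 2) (by norm_num)
    have h3 := hT1 t ht
    have h4 := hT2 t ht
    have e1 : (ball (res A H) (1 + 1) {x}).card = (ball (res A H) 2 {x}).card := rfl
    have e2 : (ball (res A H) (2 + 1) {x}).card = (ball (res A H) 3 {x}).card := rfl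
    omega
  -- the pair count
  have hpc := pair_count (A := res A H) (h.hg.res H) (R1 := 2) (R2 := 3) (by norm_num) H
    (fun w hw => ball_res_subset (Finset.singleton_subset_iff.2 hw) 2)
    (fun w hw => ball_res_subset (Finset.singleton_subset_iff.2 hw) 3)
  rw [← Finset.sum_add_distrib, ← Finset.sum_sdiff hT] at hpc
  obtain ⟨c, hc⟩ : ∃ c : V → ℕ, ∀ w, c w =
      (ball (res A H) 2 {w}).card + (ball (res A H) 3 {w}).card := ⟨_, fun _ => rfl⟩
  have hpc' : ∑ w ∈ H \ T, c w + ∑ w ∈ T, c w ≤ H.card * (H.card + 1) := by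
    simpa only [hc] using hpc
  clear hpc
  have hsT : T.card * 17 ≤ ∑ w ∈ T, c w := by
    have := Finset.card_nsmul_le_sum T c 17 (fun t ht => by
      have h2 := hT2 t ht
      have h3 := hT3 t ht
      rw [hc]
      omega)
    simpa [smul_eq_mul] using this
  -- the first special vertex
  obtain ⟨x1, hx1, t1, ht1, hxt1⟩ : ∃ x ∈ H \ T, ∃ t ∈ T, A x t := by
    by_contra hcon
    push Not at hcon
    have hne : (H \ T).Nonempty := by
      rw [← Finset.card_pos]
      omega
    have heq := hs (H \ T) hQH hne (fun x hx y hy hxy => by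
      rw [Finset.mem_sdiff]
      exact ⟨hy, fun hyT => hcon x hx y hyT hxy⟩)
    have heq2 := congrArg Finset.card heq
    omega
  have hc1 : 17 ≤ c x1 := by
    have h1 := harc x1 (hQH hx1) t1 ht1 hxt1
    rw [hc]
    omega
  have hsplit1 : ∑ w ∈ H \ T, c w = c x1 + ∑ w ∈ (H \ T).erase x1, c w :=
    (Finset.add_sum_erase _ _ hx1).symm
  have hce1 : ((H \ T).erase x1).card = (H \ T).card - 1 := Finset.card_erase_of_mem hx1
  have hpos1 : 0 < (H \ T).card := Finset.card_pos.2 ⟨x1, hx1⟩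
  have ha := arith6 hp hq (by omega)
  rcases Nat.lt_or_ge 1 (H \ T).card with hq2 | hq1
  · -- at least two vertices outside `T`
    obtain ⟨x2, hx2, hx2c⟩ : ∃ x ∈ (H \ T).erase x1, 12 ≤ c x := by
      have hne : ((H \ T).erase x1).Nonempty := by
        rw [← Finset.card_pos]
        omega
      obtain ⟨x2, hx2, y, hy, hyy, hxy⟩ : ∃ x ∈ (H \ T).erase x1, ∃ y ∈ H,
          y ∉ (H \ T).erase x1 ∧ A x y := by
        by_contra hcon
        push Not at hcon
        have heq := hs ((H \ T).erase x1) ((Finset.erase_subset _ _).trans hQH) hne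
          (fun x hx y hy hxy => by
            by_contra hyy
            exact hcon x hx y hy hyy hxy)
        have heq2 := congrArg Finset.card heq
        omega
      have hx2H : x2 ∈ H := hQH (Finset.mem_of_mem_erase hx2)
      refine ⟨x2, hx2, ?_⟩
      by_cases hyT : y ∈ T
      · have h1 := harc x2 hx2H y hyT hxy
        rw [hc]
        omega
      · have hy1 : y = x1 := by
          by_contra hne1
          exact hyy (Finset.mem_erase.2 ⟨hne1, Finset.mem_sdiff.2 ⟨hy, hyT⟩⟩)
        subst hy1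
        have h1 := harc y hy t1 ht1 hxt1
        have h2 := ball_arc h.hg hx2H hy hxy (R := 2) (by norm_num)
        have h3 := hall x2 hx2H
        have e2 : (ball (res A H) (2 + 1) {x2}).card = (ball (res A H) 3 {x2}).card := rfl
        rw [hc]
        omega
    have hsplit2 : ∑ w ∈ (H \ T).erase x1, c w = c x2 + ∑ w ∈ ((H \ T).erase x1).erase x2, c w :=
      (Finset.add_sum_erase _ _ hx2).symm
    have hce2 : (((H \ T).erase x1).erase x2).card = ((H \ T).erase x1).card - 1 :=
      Finset.card_erase_of_mem hx2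
    have hrest : (((H \ T).erase x1).erase x2).card * 7 ≤
        ∑ w ∈ ((H \ T).erase x1).erase x2, c w := by
      have := Finset.card_nsmul_le_sum (((H \ T).erase x1).erase x2) c 7 (fun x hx => by
        have hxH : x ∈ H := hQH (Finset.mem_of_mem_erase (Finset.mem_of_mem_erase hx))
        have h3 := hall x hxH
        rw [hc]
        omega)
      simpa [smul_eq_mul] using this
    have ha1 := ha.1
    have e3 : (T.card + (H \ T).card) * (T.card + (H \ T).card - 1) + 2 * (T.card + (H \ T).card)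
        = H.card * (H.card + 1) := by
      have e4 : T.card + (H \ T).card = H.card := by omega
      rw [e4]
      obtain ⟨m, hm⟩ : ∃ m, H.card = m + 1 := ⟨H.card - 1, by omega⟩
      rw [hm]
      simp only [Nat.add_sub_cancel]
      ring
    omega
  · -- one vertex outside `T`
    have hq11 : (H \ T).card = 1 := by omega
    have ha2 := ha.2 hq11
    have e3 : (T.card + 1) * T.card + 2 * (T.card + 1) = H.card * (H.card + 1) := by
      have e4 : H.card = T.card + 1 := by omega
      rw [e4]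
      ring
    omega

end Pool.Agent.Helper24.C6
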