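import Pool.Agent.Helper24.C6.Sub

/-!
Project C6, module L0: a digraph on 4 or 5 vertices without closed walks of length 1, 2, 3 and with all
out-degrees `≥ 1` has at least 3 vertices of out-degree exactly 1.

Proof. `|X| = 4`: `small_cycle` (`g = 4`): all four have out-degree 1. `|X| = 5`:
(a) Suppose `X` contains a directed 4-cycle `c0 → c1 → c2 → c3 → c0`, let `x` be the fifth vertex.
 `c_i` has no arc to `c_(i+2)` (3-cycle `c_i → c_(i+2) → c_(i+3) → c_i`) and none to `c_(i+3)` (2-cycle), so
 `dg c_i = 1 + [c_i → x]`. `x` has an out-neighbour `c` among the `c_i`. If `c' → x → c`, then `c' ≠ c` and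
 `c' ≠ c⁺` (`c → c⁺ = c' → x → c`), so `c' ∈ {c⁺⁺, c⁻}`: at most 2 of the `c_i` have an arc to `x`. If
 `dg x = 1` this gives 3 vertices of out-degree 1. If `x → c` and `x → d`, `c ≠ d`: the in-neighbours of `x`
 are in `{c⁺⁺, c⁻} ∩ {d⁺⁺, d⁻}`, at most one, so at least 3 of the `c_i` have out-degree 1.
(b) No 4-cycle: then `X` is a 5-cycle without chords, `NoShort A 5` holds on `X` (a closed walk of length 4
 without shorter ones is a 4-cycle), all out-degrees are 1 (`small_cycle` with `res A X`, `g = 5`).
Other formal route: transfer to a Boolean 5 x 5 matrix and `decide` (2^20 matrices, too many at once: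
first fix the 4-cycle `0 → 1 → 2 → 3 → 0`: then only the 8 entries at `x` are free).
The statement was checked by computer (774 labelled digraphs on 5 vertices).
-/

set_option autoImplicit false

namespace Pool.Agent.Helper24.C6

open Classical Pool.Agent.Helper24.CH

variable {V : Type} [Fintype V] {A : V → V → Prop}

private theorem L0_dg_one {X : Finset V} {a b : V} (hb : b ∈ X) (hab : A a b)
    (h : ∀ u ∈ X, A a u → u = b) : dg A X a = 1 := by
  unfold dg
  rw [Finset.card_eq_one]
  refine ⟨b, ?_⟩
  ext u
  rw [Finset.mem_filter, Finset.mem_singleton]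
  constructor
  · rintro ⟨h1, h2⟩
    exact h u h1 h2
  · rintro rfl
    exact ⟨hb, hab⟩

private theorem L0_three {F : Finset V} {p q r : V} (hp : p ∈ F) (hq : q ∈ F) (hr : r ∈ F)
    (hpq : p ≠ q) (hpr : p ≠ r) (hqr : q ≠ r) : 3 ≤ F.card := by
  have h1 : ({p, q, r} : Finset V).card = 3 := Finset.card_eq_three.2 ⟨p, q, r, hpq, hpr, hqr, rfl⟩
  rw [← h1]
  apply Finset.card_le_card
  intro u hu
  rw [Finset.mem_insert, Finset.mem_insert, Finset.mem_singleton] at hu
  rcases hu with rfl | rfl | rfl
  · exact hp
  · exact hq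
  · exact hr

private theorem L0_core (h1 : ∀ a, ¬ A a a) (h2 : ∀ a b, A a b → ¬ A b a)
    (h3 : ∀ a b c, A a b → A b c → ¬ A c a) {X : Finset V} {x y z w v : V}
    (hX : ∀ u ∈ X, u = x ∨ u = y ∨ u = z ∨ u = w ∨ u = v) (mx : x ∈ X) (my : y ∈ X)
    (mz : z ∈ X) (mw : w ∈ X) (mv : v ∈ X) (hxy : A x y) (hyz : A y z)
    (hzw : A z w) (hwx : A w x) (hvx : A v x) :
    3 ≤ (X.filter (fun w => dg A X w = 1)).card := by
  have dx : dg A X x = 1 := by
    apply L0_dg_one my hxy
    intro u hu hxu
    rcases hX u hu with rfl | rfl | rfl | rfl | rfl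
    · exact absurd hxu (h1 _)
    · rfl
    · exact absurd hwx (h3 _ _ _ hxu hzw)
    · exact absurd hwx (h2 _ _ hxu)
    · exact absurd hvx (h2 _ _ hxu)
  have dy : dg A X y = 1 := by
    apply L0_dg_one mz hyz
    intro u hu hyu
    rcases hX u hu with rfl | rfl | rfl | rfl | rfl
    · exact absurd hxy (h2 _ _ hyu)
    · exact absurd hyu (h1 _)
    · rfl
    · exact absurd hxy (h3 _ _ _ hyu hwx)
    · exact absurd hxy (h3 _ _ _ hyu hvx)
  have nxy : x ≠ y := by
    rintro rfl
    exact h1 _ hxy
  have nxz : x ≠ z := by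
    rintro rfl
    exact h2 _ _ hxy hyz
  have nyz : y ≠ z := by
    rintro rfl
    exact h1 _ hyz
  have nxw : x ≠ w := by
    rintro rfl
    exact h1 _ hwx
  have nyw : y ≠ w := by
    rintro rfl
    exact h2 _ _ hxy hwx
  have nxv : x ≠ v := by
    rintro rfl
    exact h1 _ hvx
  have nyv : y ≠ v := by
    rintro rfl
    exact h2 _ _ hxy hvx
  have fx : x ∈ X.filter (fun w => dg A X w = 1) := Finset.mem_filter.2 ⟨mx, dx⟩
  have fy : y ∈ X.filter (fun w => dg A X w = 1) := Finset.mem_filter.2 ⟨my, dy⟩
  by_cases hzv : A z v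
  · by_cases hwv : A w v
    · have dv : dg A X v = 1 := by
        apply L0_dg_one mx hvx
        intro u hu hvu
        rcases hX u hu with rfl | rfl | rfl | rfl | rfl
        · rfl
        · exact absurd hzv (h3 _ _ _ hvu hyz)
        · exact absurd hzv (h2 _ _ hvu)
        · exact absurd hwv (h2 _ _ hvu)
        · exact absurd hvu (h1 _)
      exact L0_three fx fy (Finset.mem_filter.2 ⟨mv, dv⟩) nxy nxv nyv
    · have dw : dg A X w = 1 := by
        apply L0_dg_one mx hwx
        intro u hu hwu
        rcases hX u hu with rfl | rfl | rfl | rfl | rfl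
        · rfl
        · exact absurd hzw (h3 _ _ _ hwu hyz)
        · exact absurd hzw (h2 _ _ hwu)
        · exact absurd hwu (h1 _)
        · exact absurd hwu hwv
      exact L0_three fx fy (Finset.mem_filter.2 ⟨mw, dw⟩) nxy nxw nyw
  · have dz : dg A X z = 1 := by
      apply L0_dg_one mw hzw
      intro u hu hzu
      rcases hX u hu with rfl | rfl | rfl | rfl | rfl
      · exact absurd hyz (h3 _ _ _ hzu hxy)
      · exact absurd hyz (h2 _ _ hzu)
      · exact absurd hzu (h1 _)
      · rfl
      · exact absurd hzu hzv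
    exact L0_three fx fy (Finset.mem_filter.2 ⟨mz, dz⟩) nxy nxz nyz

theorem L0 (hg : NoShort A 4) {X : Finset V} (hX : X.card = 4 ∨ X.card = 5)
    (hd : ∀ x ∈ X, 1 ≤ dg A X x) : 3 ≤ (X.filter (fun w => dg A X w = 1)).card := by
  have h1 : ∀ a, ¬ A a a := by
    intro a ha
    exact hg a a ha 0 (by norm_num) (subset_ball _ _ (Finset.mem_singleton_self a))
  have h2 : ∀ a b, A a b → ¬ A b a := by
    intro a b hab hba
    refine hg a b hab 1 (by norm_num) (mem_ball_succ_left.2 (Or.inr ⟨a, hba, ?_⟩))
    exact subset_ball _ _ (Finset.mem_singleton_self a)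
  have h3 : ∀ a b c, A a b → A b c → ¬ A c a := by
    intro a b c hab hbc hca
    refine hg a b hab 2 (by norm_num) (mem_ball_succ_left.2 (Or.inr ⟨c, hbc,
      mem_ball_succ_left.2 (Or.inr ⟨a, hca, ?_⟩)⟩))
    exact subset_ball _ _ (Finset.mem_singleton_self a)
  have hall : (∀ x ∈ X, dg A X x = 1) → 3 ≤ (X.filter (fun w => dg A X w = 1)).card := by
    intro h
    rw [Finset.filter_true_of_mem h]
    omega
  rcases hX with hX | hX
  · exact hall (small_cycle hg (Finset.card_pos.1 (by omega)) (by omega) hd).2
  · by_cases hN : NoShort (res A X) 5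
    · have hdg : ∀ x ∈ X, dg (res A X) X x = dg A X x := by
        intro x hx
        unfold dg
        congr 1
        ext u
        rw [Finset.mem_filter, Finset.mem_filter]
        unfold res
        tauto
      have h4 := small_cycle hN (X := X) (Finset.card_pos.1 (by omega)) (by omega)
        (fun x hx => by rw [hdg x hx]; exact hd x hx)
      apply hall
      intro x hx
      rw [← hdg x hx]
      exact h4.2 x hx
    · unfold NoShort at hN
      push Not at hN
      obtain ⟨x, y, hxy, i, hi, hxi⟩ := hN
      have hx3 : x ∈ ball (res A X) 3 {y} := ball_subset_ball_of_le (by omega) _ hxi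
      have hcyc : ∃ z w, res A X y z ∧ res A X z w ∧ res A X w x := by
        rcases mem_ball_succ_left.1 hx3 with h | ⟨z, hyz, h⟩
        · rw [h] at hxy
          exact absurd hxy.2.2 (h1 _)
        · rcases mem_ball_succ_left.1 h with h | ⟨w, hzw, h⟩
          · rw [h] at hxy
            exact absurd hyz.2.2 (h2 _ _ hxy.2.2)
          · rcases mem_ball_succ_left.1 h with h | ⟨u, hwu, h⟩
            · rw [h] at hxy
              exact absurd hzw.2.2 (h3 _ _ _ hxy.2.2 hyz.2.2)
            · rw [ball_zero, Finset.mem_singleton] at h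
              rw [← h] at hwu
              exact ⟨z, w, hyz, hzw, hwu⟩
      obtain ⟨z, w, hyz, hzw, hwx⟩ := hcyc
      have hex : ∃ v ∈ X, v ∉ ({x, y, z, w} : Finset V) := by
        by_contra hcon
        push Not at hcon
        have h5 := Finset.card_le_card (show X ⊆ ({x, y, z, w} : Finset V) from hcon)
        have h6 := Finset.card_le_four (a := x) (b := y) (c := z) (d := w)
        omega
      obtain ⟨v, hv, hvn⟩ := hex
      rw [Finset.mem_insert, Finset.mem_insert, Finset.mem_insert, Finset.mem_singleton] at hvn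
      push Not at hvn
      obtain ⟨nvx, nvy, nvz, nvw⟩ := hvn
      have nxy : x ≠ y := by
        rintro rfl
        exact h1 _ hxy.2.2
      have nxz : x ≠ z := by
        rintro rfl
        exact h2 _ _ hxy.2.2 hyz.2.2
      have nyz : y ≠ z := by
        rintro rfl
        exact h1 _ hyz.2.2
      have nxw : x ≠ w := by
        rintro rfl
        exact h1 _ hwx.2.2
      have nyw : y ≠ w := by
        rintro rfl
        exact h2 _ _ hxy.2.2 hwx.2.2
      have nzw : z ≠ w := by
        rintro rfl
        exact h1 _ hzw.2.2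
      have hsub : ({v, x, y, z, w} : Finset V) ⊆ X := by
        intro u hu
        simp only [Finset.mem_insert, Finset.mem_singleton] at hu
        rcases hu with rfl | rfl | rfl | rfl | rfl
        · exact hv
        · exact hxy.1
        · exact hxy.2.1
        · exact hzw.1
        · exact hzw.2.1
      have hc5 : ({v, x, y, z, w} : Finset V).card = 5 := by
        rw [Finset.card_insert_of_notMem, Finset.card_insert_of_notMem,
          Finset.card_insert_of_notMem, Finset.card_insert_of_notMem, Finset.card_singleton]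
        · simpa using nzw
        · simp [nyz, nyw]
        · simp [nxy, nxz, nxw]
        · simp [nvx, nvy, nvz, nvw]
      have hXeq : ({v, x, y, z, w} : Finset V) = X :=
        Finset.eq_of_subset_of_card_le hsub (by omega)
      have hmem : ∀ u, u ∈ X ↔ u = v ∨ u = x ∨ u = y ∨ u = z ∨ u = w := by
        intro u
        rw [← hXeq]
        simp only [Finset.mem_insert, Finset.mem_singleton]
      have hdv : 0 < (X.filter (fun u => A v u)).card := hd v hv
      obtain ⟨u, hu⟩ := Finset.card_pos.1 hdv
      rw [Finset.mem_filter] at hu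
      obtain ⟨huX, hvu⟩ := hu
      rcases (hmem u).1 huX with rfl | rfl | rfl | rfl | rfl
      · exact absurd hvu (h1 _)
      · refine L0_core h1 h2 h3 (fun t ht => ?_) hxy.1 hxy.2.1 hzw.1 hzw.2.1 hv hxy.2.2 hyz.2.2
          hzw.2.2 hwx.2.2 hvu
        rcases (hmem t).1 ht with h | h | h | h | h <;> simp only [h, true_or, or_true]
      · refine L0_core h1 h2 h3 (fun t ht => ?_) hxy.2.1 hzw.1 hzw.2.1 hxy.1 hv hyz.2.2
          hzw.2.2 hwx.2.2 hxy.2.2 hvu
        rcases (hmem t).1 ht with h | h | h | h | h <;> simp only [h, true_or, or_true]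
      · refine L0_core h1 h2 h3 (fun t ht => ?_) hzw.1 hzw.2.1 hxy.1 hxy.2.1 hv hzw.2.2 hwx.2.2
          hxy.2.2 hyz.2.2 hvu
        rcases (hmem t).1 ht with h | h | h | h | h <;> simp only [h, true_or, or_true]
      · refine L0_core h1 h2 h3 (fun t ht => ?_) hzw.2.1 hxy.1 hxy.2.1 hzw.1 hv hwx.2.2 hxy.2.2
          hyz.2.2 hzw.2.2 hvu
        rcases (hmem t).1 ht with h | h | h | h | h <;> simp only [h, true_or, or_true]

end Pool.Agent.Helper24.C6
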