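import Pool.Agent.Helper24.C6.Sub

/-!
Project C6, module L5: a digraph on 5 or 6 vertices without closed walks of length 1, …, 4 and with all
out-degrees `≥ 1` has at least 2 vertices `w` of out-degree 1 whose out-neighbour `w'` has out-degree 1.

Proof. `|X| = 5`: `small_cycle` (`g = 5`), all out-degrees are 1. `|X| = 6`:
(a) `X` contains a 5-cycle `c0 → … → c4 → c0`, sixth vertex `x`. No chords: `c_i → c_(i+k)`, `2 ≤ k ≤ 4`
 closes a walk of length `1 + 5 - k ≤ 4`. So `dg c_i = 1 + [c_i → x]`. `x → c` for some `c = c_i`. If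
 `c' → x → c` then `2 + d(c, c') ≥ 5`, so `c' ∈ {c_(i+3), c_(i+4)}`. Hence `c_i, c_(i+1), c_(i+2)` have
 out-degree 1 and `w = c_i, c_(i+1)` are as wanted.
(b) no 5-cycle: then `X` has no closed walk of length 5 either (a closed walk of length 5 without
 shorter ones is a 5-cycle), so `small_cycle` (for `res A X`, `g = 6`): all out-degrees are 1.
(So C6 with chords is in case (a): `i → i+2` gives a 5-cycle.)
The statement was checked by computer (6384 labelled digraphs on 6 vertices).
-/

set_option autoImplicit false

namespace Pool.Agent.Helper24.C6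

open Classical Pool.Agent.Helper24.CH

variable {V : Type} [Fintype V] {A : V → V → Prop}

theorem L5 (hg : NoShort A 5) {X : Finset V} (hX : X.card = 5 ∨ X.card = 6)
    (hd : ∀ x ∈ X, 1 ≤ dg A X x) :
    2 ≤ (X.filter (fun w => dg A X w = 1 ∧ ∀ w' ∈ X, A w w' → dg A X w' = 1)).card := by
  sorry

end Pool.Agent.Helper24.C6
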