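import Pool.Agent.Helper24.C6.G4
import Pool.Agent.Helper24.C6.G5
import Pool.Agent.Helper24.C6.G6
import Pool.Agent.Helper24.CH.Equiv

/-!
Project C6, module Main: Caccetta-Haggkvist for `r ≤ 6`, all `n`.

`exact`: choose for every `v` a set `O v` of exactly `r` out-neighbours, `B v y := y ∈ O v`; `NoShort B g` by
 `noShort_of_hom` with `f = id`.
`ch6`: `g = 0, 1`: trivial (`n ≥ 1`, `r * 0 + 1`). `r + 1 ≤ g`: `ch_main`. Otherwise `g ≤ r ≤ 6`; replace `A` by the
 digraph of `exact`. `g = 2`: `card_one`: `r + 1 ≤ n`. `g = 3`: `pair_waste` with `R1 = R2 = 1`: `2 n (r + 1) ≤ n (n + 1)`,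
 `n ≥ 2 r + 1`. `g = 4`: `r = 4, 5, 6`: `g4`. `g = 5`: `r = 5, 6`: `g5`. `g = 6 = r`: `g6`.
`deficiency6`: as `deficiency_main` in Helper24/CH/Equiv.lean (`clone`).
-/

set_option autoImplicit false

namespace Pool.Agent.Helper24.C6

open Classical Pool.Agent.Helper24.CH

variable {V : Type} [Fintype V] {A : V → V → Prop}

theorem exact {r g : ℕ} (hg : NoShort A g)
    (hout : ∀ v, r ≤ (Finset.univ.filter (fun y => A v y)).card) :
    ∃ B : V → V → Prop, Dig B r g := by
  have h1 : ∀ v, ∃ O : Finset V, O ⊆ Finset.univ.filter (fun y => A v y) ∧ O.card = r :=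
    fun v => Finset.exists_subset_card_eq (hout v)
  choose O hO hc using h1
  refine ⟨fun v y => y ∈ O v, ?_, ?_⟩
  · refine noShort_of_hom (f := id) ?_ hg
    intro a b hab
    exact (Finset.mem_filter.1 (hO a hab)).2
  · intro v
    have h2 : out (fun v y => y ∈ O v) v = O v := by
      ext y
      simp [out]
    rw [h2, hc]

theorem ch6 [Nonempty V] {r g : ℕ} (hr : r ≤ 6) (hg : NoShort A g)
    (hout : ∀ v, r ≤ (Finset.univ.filter (fun y => A v y)).card) :
    r * (g - 1) + 1 ≤ Fintype.card V := by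
  have hn : 0 < Fintype.card V := Fintype.card_pos
  by_cases hrg : r + 1 ≤ g
  · exact ch_main hrg hout hg
  obtain ⟨B, hB⟩ := exact hg hout
  have hgr : g ≤ r := by omega
  have hg6 : g ≤ 6 := by omega
  interval_cases g
  · simpa using Nat.succ_le_of_lt hn
  · simpa using Nat.succ_le_of_lt hn
  · obtain ⟨v⟩ : Nonempty V := inferInstance
    have h1 := hB.card_one le_rfl v
    have h2 : (ball B 1 {v}).card ≤ Fintype.card V := Finset.card_le_univ _
    omega
  · have h1 := pair_count (A := B) hB.hg (R1 := 1) (R2 := 1) (by omega) Finset.univ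
      (fun _ _ => Finset.subset_univ _) (fun _ _ => Finset.subset_univ _)
    have h2 : ∑ w : V, (ball B 1 {w}).card = Fintype.card V * (r + 1) := by
      rw [Finset.sum_congr rfl (fun w _ => hB.card_one (by omega) w), Finset.sum_const,
        Finset.card_univ, smul_eq_mul]
    rw [h2, Finset.card_univ, ← mul_add] at h1
    have h3 := Nat.le_of_mul_le_mul_left h1 hn
    omega
  · have h1 := g4 hB (by omega)
    omega
  · have h1 := g5 hB (by omega)
    omega
  · have h6 : r = 6 := by omega
    subst h6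
    have h1 := g6 hB
    omega

theorem deficiency6 {V : Type} [Fintype V] [Nonempty V] (Adj : V → V → Prop)
    (hdeg : ∀ u, ∃ w, Adj u w) (g r : ℕ) (hg : NoShort Adj g) (hr : r ≤ 6) :
    r * (g - 1) + 1 ≤ Fintype.card V +
        ∑ u : V, (r - (Finset.univ.filter (fun w => Adj u w)).card) := by
  obtain ⟨W, _, _, B, hB, hout, hcard⟩ := clone Adj hdeg g r hg
  rw [← hcard]
  exact ch6 hr hB hout

end Pool.Agent.Helper24.C6
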