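import Pool.Agent.Helper24.C6.Base
import Pool.Agent.Helper24.CH.Equiv

/-!
Project C6, module Sub: Caccetta-Haggkvist for induced subdigraphs; small digraphs.

`ch_sub`: apply `ch_main` to the subtype `{x // x ∈ X}` with `B a b = A a b`; `NoShort` by
`noShort_of_hom` (Equiv.lean of project CH) with `f = Subtype.val`; the out-degree of `a` in `B` is
`dg A X a` (bijection of `{b : {x // x ∈ X} | A a b}` with `X.filter (A a ·)`, e.g. `Finset.card_map` or
`Finset.filter_attach`/`Finset.card_subtype`).

`small_cycle`: choose `f x ∈ X`, `A x (f x)` for `x ∈ X`. The sequence `x, f x, f (f x), …` repeats within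
`|X|` steps, i.e. there are `i < k ≤ |X|` with `f^i x = f^k x`; by `NoShort` (closed walk of length `k - i`)
`k - i ≥ g ≥ |X|`, so `i = 0`, `k = g = |X|` and `x, f x, …, f^(g-1) x` are distinct: all the elements of
`X`. If `y ∈ X`, `A x y`: `y = f^k x` with `0 ≤ k < g`; `k = 0` is a loop; `k ≥ 1`: closed walk
`x → y = f^k x → … → f^g x = x` of length `1 + (g - k)`, so `1 + g - k ≥ g`, `k = 1`. Hence `dg A X x = 1`.

`exists_sink`: if all `dg A X x ≥ 1`, `small_cycle` gives `|X| = g`.
-/

set_option autoImplicit false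

namespace Pool.Agent.Helper24.C6

open Classical Pool.Agent.Helper24.CH

variable {V : Type} [Fintype V] {A : V → V → Prop}

theorem ch_sub {r g : ℕ} (hg : NoShort A g) (hrg : r + 1 ≤ g) {X : Finset V} (hX : X.Nonempty)
    (hd : ∀ x ∈ X, r ≤ dg A X x) : r * (g - 1) + 1 ≤ X.card := by
  obtain ⟨x0, hx0⟩ := hX
  haveI : Nonempty {x // x ∈ X} := ⟨⟨x0, hx0⟩⟩
  have hB : NoShort (fun a b : {x // x ∈ X} => A a.1 b.1) g :=
    noShort_of_hom (f := Subtype.val) (fun _ _ h => h) hg
  have hout : ∀ v : {x // x ∈ X}, r ≤ (Finset.univ.filter (fun y : {x // x ∈ X} => A v.1 y.1)).card := by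
    intro v
    refine (hd v.1 v.2).trans ?_
    unfold dg
    rw [← Finset.card_map (Function.Embedding.subtype (fun x => x ∈ X))]
    apply Finset.card_le_card
    intro y hy
    rw [Finset.mem_filter] at hy
    rw [Finset.mem_map]
    exact ⟨⟨y, hy.1⟩, Finset.mem_filter.2 ⟨Finset.mem_univ _, hy.2⟩, rfl⟩
  have h := ch_main hrg hout hB
  rwa [Fintype.card_coe] at h

private theorem iter_ball {X : Finset V} {F : V → V} (hFX : ∀ x ∈ X, F x ∈ X)
    (hFA : ∀ x ∈ X, A x (F x)) {x : V} (hx : x ∈ X) (m n : ℕ) :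
    F^[m] x ∈ X ∧ F^[m + n] x ∈ ball A n {F^[m] x} := by
  have h1 : ∀ k, F^[k] x ∈ X := by
    intro k
    induction k with
    | zero => exact hx
    | succ k ih =>
      rw [Function.iterate_succ_apply']
      exact hFX _ ih
  refine ⟨h1 m, ?_⟩
  induction n with
  | zero => simp [ball_zero]
  | succ n ih =>
    rw [← add_assoc, Function.iterate_succ_apply']
    exact mem_ball_succ.2 (Or.inr ⟨_, ih, hFA _ (h1 _)⟩)

theorem small_cycle {g : ℕ} (hg : NoShort A g) {X : Finset V} (hX : X.Nonempty)
    (hXg : X.card ≤ g) (hd : ∀ x ∈ X, 1 ≤ dg A X x) :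
    X.card = g ∧ ∀ x ∈ X, dg A X x = 1 := by
  have hex : ∀ x ∈ X, ∃ y ∈ X, A x y := by
    intro x hx
    have h := hd x hx
    unfold dg at h
    obtain ⟨y, hy⟩ := Finset.card_pos.1 h
    rw [Finset.mem_filter] at hy
    exact ⟨y, hy⟩
  choose! F hFX hFA using hex
  -- equal iterates are at least `g` apart
  have hgap : ∀ x ∈ X, ∀ i k : ℕ, i < k → F^[i] x = F^[k] x → g ≤ k - i := by
    intro x hx i k hik h
    by_contra hc
    push Not at hc
    have h1 := (iter_ball hFX hFA hx i 0).1
    have h2 := (iter_ball hFX hFA hx (i + 1) (k - i - 1)).2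
    have e : i + 1 + (k - i - 1) = k := by omega
    rw [e, ← h] at h2
    have h3 := hFA _ h1
    rw [← Function.iterate_succ_apply' F i x] at h3
    exact hg _ _ h3 (k - i - 1) (by omega) h2
  have hrep : ∀ x ∈ X, X.card = g ∧ F^[g] x = x := by
    intro x hx
    have hmaps : ∀ i ∈ Finset.range (X.card + 1), F^[i] x ∈ X :=
      fun i _ => (iter_ball hFX hFA hx i 0).1
    obtain ⟨i, hi, k, hk, hne, heq⟩ :=
      Finset.exists_ne_map_eq_of_card_lt_of_maps_to (by simp) hmaps
    rw [Finset.mem_range] at hi hk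
    rcases lt_or_gt_of_ne hne with h | h
    · have h1 := hgap x hx i k h heq
      have h2 : i = 0 := by omega
      have h3 : k = g := by omega
      subst h2
      refine ⟨by omega, ?_⟩
      rw [← h3, ← heq]
      rfl
    · have h1 := hgap x hx k i h heq.symm
      have h2 : k = 0 := by omega
      have h3 : i = g := by omega
      subst h2
      refine ⟨by omega, ?_⟩
      rw [← h3, heq]
      rfl
  obtain ⟨x0, hx0⟩ := hX
  have hcard := (hrep x0 hx0).1
  refine ⟨hcard, ?_⟩
  intro x hx
  have hgpos : 0 < g := by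
    rw [← hcard]
    exact Finset.card_pos.2 ⟨x, hx⟩
  have himg : (Finset.range g).image (fun i => F^[i] x) = X := by
    apply Finset.eq_of_subset_of_card_le
    · intro y hy
      obtain ⟨i, -, rfl⟩ := Finset.mem_image.1 hy
      exact (iter_ball hFX hFA hx i 0).1
    · rw [Finset.card_image_of_injOn, Finset.card_range, hcard]
      intro i hi k hk h
      have hi' : i < g := Finset.mem_range.1 (by exact_mod_cast hi)
      have hk' : k < g := Finset.mem_range.1 (by exact_mod_cast hk)
      rcases lt_trichotomy i k with hl | hl | hl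
      · have := hgap x hx i k hl h
        omega
      · exact hl
      · have := hgap x hx k i hl h.symm
        omega
  unfold dg
  rw [Finset.card_eq_one]
  refine ⟨F x, ?_⟩
  ext y
  rw [Finset.mem_filter, Finset.mem_singleton]
  constructor
  · rintro ⟨hyX, hxy⟩
    have hy2 := hyX
    rw [← himg, Finset.mem_image] at hy2
    obtain ⟨k, hk, hky⟩ := hy2
    rw [Finset.mem_range] at hk
    rcases Nat.eq_zero_or_pos k with hk0 | hk0
    · subst hk0
      have hyx : y = x := hky.symm
      subst hyx
      by_cases hg2 : 0 + 1 < g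
      · exact absurd (by simp [ball_zero]) (hg _ _ hxy 0 hg2)
      · have hg1 : X.card = 1 := by omega
        obtain ⟨z, hz⟩ := Finset.card_eq_one.1 hg1
        have e1 := hFX _ hx
        rw [hz, Finset.mem_singleton] at e1 hx
        rw [e1, hx]
    · have h2 := (iter_ball hFX hFA hx k (g - k)).2
      have e : k + (g - k) = g := by omega
      rw [e, (hrep x hx).2, hky] at h2
      by_contra hne
      have hk1 : k ≠ 1 := by
        rintro rfl
        exact hne hky.symm
      exact hg _ _ hxy (g - k) (by omega) h2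
  · rintro rfl
    exact ⟨hFX x hx, hFA x hx⟩

theorem exists_sink {g : ℕ} (hg : NoShort A g) {X : Finset V} (hX : X.Nonempty)
    (hXg : X.card < g) : ∃ x ∈ X, dg A X x = 0 := by
  by_contra hc
  push Not at hc
  have h := (small_cycle hg hX hXg.le (fun x hx => Nat.one_le_iff_ne_zero.2 (hc x hx))).1
  omega

end Pool.Agent.Helper24.C6
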